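import Pool.Agent.H58.Hopf.Coalg

/-!
The antipode on comatrices; the antipode of a Hopf algebra whose underlying ring is stably finite
is injective.
-/

open TensorProduct Coalgebra HopfAlgebra

namespace H58Hopf

section

variable {k : Type*} [Field k] {H : Type*} [Ring H] [HopfAlgebra k H]

namespace CoData

variable {m : Type*} [Fintype m] [DecidableEq m] (D : CoData k H m)

/-- the matrix of antipodes -/
noncomputable def s : Matrix m m H := D.d.map (antipode k)

theorem s_mul_d : D.s * D.d = 1 := by
  ext i j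
  have h1 := mul_antipode_rTensor_comul_apply (R := k) (D.d i j)
  rw [D.comul_d, D.counit_d] at h1
  simp only [map_sum, LinearMap.rTensor_tmul, LinearMap.mul'_apply] at h1
  rw [Matrix.mul_apply]
  simp only [s, Matrix.map_apply]
  rw [h1, Matrix.one_apply]
  split_ifs <;> simp

theorem d_mul_s : D.d * D.s = 1 := by
  ext i j
  have h1 := mul_antipode_lTensor_comul_apply (R := k) (D.d i j)
  rw [D.comul_d, D.counit_d] at h1
  simp only [map_sum, LinearMap.lTensor_tmul, LinearMap.mul'_apply] at h1
  rw [Matrix.mul_apply]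
  simp only [s, Matrix.map_apply]
  rw [h1, Matrix.one_apply]
  split_ifs <;> simp

theorem comul_s (i j : m) :
    (comul (antipode k (D.d i j)) : H ⊗[k] H)
      = ∑ l, antipode k (D.d l j) ⊗ₜ[k] antipode k (D.d i l) := by
  let Δ : H →+* H ⊗[k] H := (Bialgebra.comulAlgHom k H).toRingHom
  let L : H →+* H ⊗[k] H := (Algebra.TensorProduct.includeLeft : H →ₐ[k] H ⊗[k] H).toRingHom
  let R : H →+* H ⊗[k] H := (Algebra.TensorProduct.includeRight : H →ₐ[k] H ⊗[k] H).toRingHom
  have hΔ : D.d.map Δ = D.d.map L * D.d.map R := by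
    ext i j
    rw [Matrix.mul_apply]
    simp only [Matrix.map_apply]
    have : Δ (D.d i j) = comul (D.d i j) := rfl
    rw [this, D.comul_d]
    refine Finset.sum_congr rfl fun l _ => ?_
    change _ = (D.d i l ⊗ₜ[k] (1 : H)) * ((1 : H) ⊗ₜ[k] D.d l j)
    rw [Algebra.TensorProduct.tmul_mul_tmul]; simp
  have h1 : D.s.map Δ * D.d.map Δ = 1 := by
    rw [← Matrix.map_mul, D.s_mul_d, Matrix.map_one _ (map_zero _) (map_one _)]
  have hL : D.d.map L * D.s.map L = 1 := by
    rw [← Matrix.map_mul, D.d_mul_s, Matrix.map_one _ (map_zero _) (map_one _)]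
  have hR : D.d.map R * D.s.map R = 1 := by
    rw [← Matrix.map_mul, D.d_mul_s, Matrix.map_one _ (map_zero _) (map_one _)]
  have h2 : D.d.map Δ * (D.s.map R * D.s.map L) = 1 := by
    rw [hΔ, Matrix.mul_assoc, ← Matrix.mul_assoc (D.d.map R), hR, Matrix.one_mul, hL]
  have h3 : D.s.map Δ = D.s.map R * D.s.map L := by
    calc D.s.map Δ = D.s.map Δ * (D.d.map Δ * (D.s.map R * D.s.map L)) := by
          rw [h2, Matrix.mul_one]
      _ = D.s.map R * D.s.map L := by rw [← Matrix.mul_assoc, h1, Matrix.one_mul]
  have h4 := congrFun (congrFun h3 i) j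
  rw [Matrix.mul_apply] at h4
  simp only [Matrix.map_apply, s] at h4
  have h5 : Δ (antipode k (D.d i j)) = comul (antipode k (D.d i j)) := rfl
  rw [← h5, h4]
  refine Finset.sum_congr rfl fun l _ => ?_
  change ((1 : H) ⊗ₜ[k] antipode k (D.d i l)) * (antipode k (D.d l j) ⊗ₜ[k] (1 : H)) = _
  rw [Algebra.TensorProduct.tmul_mul_tmul]; simp

theorem n_eq (i : m) : D.n i = ∑ j, (counit (R := k) (D.n j)) • D.d i j := by
  have h1 : (TensorProduct.rid k H) ((counit (R := k) (A := H)).lTensor H (comul (D.n i)))
      = D.n i := by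
    rw [lTensor_counit_comul]; simp
  rw [D.comul_n] at h1
  simp only [map_sum, LinearMap.lTensor_tmul, TensorProduct.rid_tmul] at h1
  exact h1.symm

theorem comul_s_n (i : m) :
    (comul (antipode k (D.n i)) : H ⊗[k] H)
      = ∑ l, antipode k (D.n l) ⊗ₜ[k] antipode k (D.d i l) := by
  conv_lhs => rw [D.n_eq i]
  simp only [map_sum, map_smul, D.comul_s]
  have : ∀ l, antipode k (D.n l) = ∑ j, (counit (R := k) (D.n j)) • antipode k (D.d l j) := by
    intro l
    conv_lhs => rw [D.n_eq l]
    simp
  simp only [this, TensorProduct.sum_tmul, Finset.smul_sum]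
  rw [Finset.sum_comm]
  refine Finset.sum_congr rfl fun l _ => Finset.sum_congr rfl fun j _ => ?_
  rw [TensorProduct.smul_tmul']

end CoData

open Matrix in
theorem antipode_injective [IsStablyFiniteRing H] :
    Function.Injective (antipode k : H →ₗ[k] H) := by
  classical
  rw [injective_iff_map_eq_zero]
  intro x hx
  obtain ⟨m, D, hD⟩ := exists_codata (k := k) ({x} : Finset H)
  have hxs := hD x (by simp)
  -- the space S(N)
  let V : Submodule k H := Submodule.span k (Set.range fun i => antipode k (D.n i))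
  have hV : V.FG := Submodule.fg_span (Set.finite_range _)
  have : Module.Finite k V := Module.Finite.iff_fg.mpr hV
  let b := Module.finBasis k V
  set r := Module.finrank k V
  let v : Fin r → H := fun l => (b l : H)
  have hli : LinearIndependent k v := b.linearIndependent.map' V.subtype (Submodule.ker_subtype V)
  -- lam
  have h1 : ∀ i, ∃ c : Fin r → k, antipode k (D.n i) = ∑ l, c l • v l := by
    intro i
    have hi : antipode k (D.n i) ∈ V := Submodule.subset_span ⟨i, rfl⟩
    refine ⟨fun l => b.repr ⟨_, hi⟩ l, ?_⟩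
    have h1 := b.sum_repr ⟨_, hi⟩
    have h2 := congrArg (V.subtype) h1
    simp only [map_sum, map_smul, Submodule.subtype_apply] at h2
    exact h2.symm
  choose lam hlam using h1
  have h2 : ∀ l, ∃ c : Fin m → k, v l = ∑ i, c i • antipode k (D.n i) := by
    intro l
    obtain ⟨c, hc⟩ := (Submodule.mem_span_range_iff_exists_fun k).mp (b l).2
    exact ⟨c, hc.symm⟩
  choose al hal using h2
  let Lm : Matrix (Fin m) (Fin r) H := fun i l => algebraMap k H (lam i l)
  let Am : Matrix (Fin r) (Fin m) H := fun l i => algebraMap k H (al l i)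
  -- Am * Lm = 1
  have hAL0 : ∀ l l', ∑ i, al l i * lam i l' = if l = l' then 1 else 0 := by
    intro l l'
    have h3 : v l = ∑ l', (∑ i, al l i * lam i l') • v l' := by
      rw [hal l]
      simp only [hlam, Finset.smul_sum, Finset.sum_smul, mul_smul]
      rw [Finset.sum_comm]
    have h4 : ∑ l', ((∑ i, al l i * lam i l') - if l = l' then 1 else 0) • v l' = 0 := by
      simp only [sub_smul, Finset.sum_sub_distrib, ← h3]
      simp
    exact sub_eq_zero.mp (Fintype.linearIndependent_iff.mp hli _ h4 l')
  have hAL : Am * Lm = 1 := by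
    ext l l'
    rw [Matrix.mul_apply, Matrix.one_apply]
    simp only [Am, Lm, ← map_mul, ← map_sum, hAL0]
    split_ifs <;> simp
  -- S(D) Lm = Lm Am S(D) Lm
  have hcom : ∀ i, (comul (antipode k (D.n i)) : H ⊗[k] H)
      = ∑ l, v l ⊗ₜ[k] ((D.s * Lm) i l) := by
    intro i
    rw [D.comul_s_n]
    simp only [Matrix.mul_apply, TensorProduct.tmul_sum]
    rw [Finset.sum_comm]
    refine Finset.sum_congr rfl fun j _ => ?_
    conv_lhs => rw [hlam j, TensorProduct.sum_tmul]
    refine Finset.sum_congr rfl fun l _ => ?_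
    simp only [Lm, CoData.s, Matrix.map_apply]
    rw [TensorProduct.smul_tmul, ← Algebra.commutes, ← Algebra.smul_def]
  have hSL : D.s * Lm = Lm * (Am * (D.s * Lm)) := by
    ext i l'
    have e2 : antipode k (D.n i) = ∑ i', (∑ l, lam i l * al l i') • antipode k (D.n i') := by
      conv_lhs => rw [hlam i]
      simp only [hal, Finset.smul_sum, Finset.sum_smul, mul_smul]
      rw [Finset.sum_comm]
    have e3 := hcom i
    rw [e2] at e3
    simp only [map_sum, map_smul, hcom, Finset.smul_sum] at e3
    rw [Finset.sum_comm] at e3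
    simp only [← TensorProduct.tmul_smul, ← TensorProduct.tmul_sum] at e3
    have e4 := congrFun (tmul_left_inj hli e3) l'
    rw [← e4, ← Matrix.mul_assoc, Matrix.mul_apply]
    refine Finset.sum_congr rfl fun i' _ => ?_
    rw [Algebra.smul_def, Matrix.mul_apply (M := Lm)]
    simp only [Lm, Am, map_sum, map_mul]
  have hFE : (Am * (D.d * Lm)) * (Am * (D.s * Lm)) = 1 := by
    calc (Am * (D.d * Lm)) * (Am * (D.s * Lm)) = Am * (D.d * (Lm * (Am * (D.s * Lm)))) := by
          simp only [Matrix.mul_assoc]
      _ = Am * ((D.d * D.s) * Lm) := by rw [← hSL, Matrix.mul_assoc]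
      _ = 1 := by rw [D.d_mul_s, Matrix.one_mul, hAL]
  have hEF : (Am * (D.s * Lm)) * (Am * (D.d * Lm)) = 1 := mul_eq_one_comm.mp hFE
  have hDL : D.d * Lm = Lm * (Am * (D.d * Lm)) := by
    calc D.d * Lm = D.d * (Lm * ((Am * (D.s * Lm)) * (Am * (D.d * Lm)))) := by
          rw [hEF, Matrix.mul_one]
      _ = (D.d * D.s) * (Lm * (Am * (D.d * Lm))) := by
          rw [← Matrix.mul_assoc Lm, ← hSL]; simp only [Matrix.mul_assoc]
      _ = _ := by rw [D.d_mul_s, Matrix.one_mul]
  -- n_i = Σ lam_il w_l
  let w : Fin r → H := fun l => ∑ l', (counit (R := k) (v l')) • (Am * (D.d * Lm)) l l'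
  have hn : ∀ i, D.n i = ∑ l, lam i l • w l := by
    intro i
    have hc : ∀ j, counit (R := k) (D.n j) = ∑ l, lam j l * counit (R := k) (v l) := by
      intro j
      rw [← counit_antipode (R := k) (D.n j), hlam j, map_sum]
      simp
    rw [D.n_eq i]
    calc ∑ j, (counit (R := k) (D.n j)) • D.d i j
        = ∑ l, (counit (R := k) (v l)) • (D.d * Lm) i l := by
          simp only [hc, Matrix.mul_apply, Finset.sum_smul, Finset.smul_sum]
          rw [Finset.sum_comm]
          refine Finset.sum_congr rfl fun l _ => Finset.sum_congr rfl fun j _ => ?_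
          simp only [Lm]
          rw [← Algebra.commutes, ← Algebra.smul_def, smul_smul, mul_comm]
      _ = _ := by
          rw [hDL]
          simp only [w, Matrix.mul_apply (M := Lm), Finset.smul_sum]
          rw [Finset.sum_comm]
          refine Finset.sum_congr rfl fun l _ => Finset.sum_congr rfl fun j _ => ?_
          rw [smul_smul, mul_comm (lam i l), mul_smul]
          congr 1
          simp only [Lm]
          rw [← Algebra.smul_def]
  obtain ⟨c, hc⟩ := (Submodule.mem_span_range_iff_exists_fun k).mp hxs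
  have h5 : ∑ l, (∑ i, c i * lam i l) • v l = 0 := by
    rw [← hx, ← hc]
    simp only [map_sum, map_smul, Finset.sum_smul]
    rw [Finset.sum_comm]
    refine Finset.sum_congr rfl fun i _ => ?_
    rw [hlam i, Finset.smul_sum]
    refine Finset.sum_congr rfl fun l _ => ?_
    rw [mul_smul]
  have h6 := Fintype.linearIndependent_iff.mp hli _ h5
  rw [← hc]
  simp only [hn, Finset.smul_sum]
  rw [Finset.sum_comm]
  refine Finset.sum_eq_zero fun l _ => ?_
  simp only [smul_smul]
  rw [← Finset.sum_smul, h6 l, zero_smul]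

end

end H58Hopf
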