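import Pool.Agent.H58.Hopf.Coalg

/-!
If `B` is a left coideal subalgebra of a Hopf algebra `H` such that `ker ε` is generated, as a
right ideal, by `B ∩ ker ε`, then every `B`-balanced additive map `H × H → W` factors through
the multiplication.
-/

open TensorProduct Coalgebra HopfAlgebra

namespace H58Hopf

universe u v

/-- Every `B`-balanced additive map `R × R → W` is determined by `Φ x r = Φ 1 (x * r)`. -/
def BalancedTrivial {R : Type v} [Ring R] (B : Set R) : Prop :=
  ∀ (W : Type v) [AddCommGroup W] (Φ : R →+ R →+ W),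
    (∀ x, ∀ b ∈ B, ∀ r, Φ (x * b) r = Φ x (b * r)) → ∀ x r, Φ x r = Φ 1 (x * r)

section

variable {k : Type u} [Field k] {H : Type v} [Ring H] [HopfAlgebra k H]

open MulOpposite in
theorem balanced_hopf (B : Subalgebra k H)
    (hΔ : ∀ b ∈ B, (comul b : H ⊗[k] H) ∈ LinearMap.range (B.val.toLinearMap.lTensor H))
    (hgen : ∀ x : H, counit (R := k) x = 0 →
      x ∈ Submodule.span Hᵐᵒᵖ {b : H | b ∈ B ∧ counit (R := k) b = 0}) :
    BalancedTrivial (B : Set H) := by
  intro W _ Φ hΦ
  have hsm : ∀ (r : k) (m n : H), Φ (r • m) n = Φ m (r • n) := by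
    intro r m n
    have := hΦ m (algebraMap k H r) (B.algebraMap_mem r) n
    rwa [← Algebra.commutes, ← Algebra.smul_def, ← Algebra.smul_def] at this
  let L : H ⊗[k] H →+ W := TensorProduct.liftAddHom Φ hsm
  have hL : ∀ x y, L (x ⊗ₜ y) = Φ x y := fun x y => rfl
  -- P z : x ⊗ y ↦ z S(x) ⊗ y
  let P : H → (H ⊗[k] H →ₗ[k] H ⊗[k] H) := fun z =>
    ((LinearMap.mulLeft k z) ∘ₗ antipode k).rTensor H
  have hP : ∀ z x y, P z (x ⊗ₜ y) = (z * antipode k x) ⊗ₜ y := fun z x y => rfl
  -- fact 1
  have fact1 : ∀ z b h, b ∈ B → counit (R := k) b = 0 → L (P z (comul (b * h))) = 0 := by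
    intro z b h hb hb0
    obtain ⟨t, ht⟩ := hΔ b hb
    have gen : ∀ (t : H ⊗[k] B) (p q : H),
        L (P z ((B.val.toLinearMap.lTensor H t) * (p ⊗ₜ[k] q)))
          = Φ (z * antipode k p *
              (LinearMap.mul' k H ((antipode k).rTensor H (B.val.toLinearMap.lTensor H t)))) q := by
      intro t p q
      induction t using TensorProduct.induction_on with
      | zero => simp
      | tmul x c =>
        simp only [LinearMap.lTensor_tmul, LinearMap.rTensor_tmul, LinearMap.mul'_apply,
          Algebra.TensorProduct.tmul_mul_tmul, hP, hL]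
        rw [HopfAlgebra.antipode_mul_antidistrib, ← mul_assoc, ← mul_assoc]
        exact (hΦ _ _ c.2 _).symm
      | add s t hs ht =>
        simp only [map_add, add_mul, mul_add, AddMonoidHom.add_apply, hs, ht]
    have gen2 : ∀ s : H ⊗[k] H, L (P z ((B.val.toLinearMap.lTensor H t) * s)) = 0 := by
      intro s
      induction s using TensorProduct.induction_on with
      | zero => simp
      | tmul p q =>
        rw [gen, ht, mul_antipode_rTensor_comul_apply, hb0]
        simp
      | add s t hs ht => rw [mul_add, map_add, map_add, hs, ht, add_zero]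
    rw [Bialgebra.comul_mul, ← ht]
    exact gen2 _
  have fact2 : ∀ z h, L (P z (comul h)) = Φ (counit (R := k) h • z) 1 := by
    intro z h
    have h1 : ∀ x : H, x ∈ Submodule.span Hᵐᵒᵖ {b : H | b ∈ B ∧ counit (R := k) b = 0} →
        L (P z (comul x)) = 0 := by
      intro x hx
      refine Submodule.closure_induction (p := fun x _ => L (P z (comul x)) = 0) ?_ ?_ ?_ hx
      · simp
      · intro x y _ _ hx hy
        rw [map_add, map_add, map_add, hx, hy, add_zero]
      · intro r x hx
        exact fact1 z x r.unop hx.1 hx.2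
    have h2 := h1 (h - algebraMap k H (counit h)) (hgen _ (by simp))
    rw [map_sub, map_sub, map_sub, sub_eq_zero] at h2
    rw [h2, Algebra.algebraMap_eq_smul_one, map_smul, map_smul, Bialgebra.comul_one,
      Algebra.TensorProduct.one_def, hP, TensorProduct.smul_tmul', hL]
    simp
  have fact3 : ∀ z h, Φ z h = Φ (z * h) 1 := by
    intro z h
    let F : H ⊗[k] H →ₗ[k] H := LinearMap.mulLeft k z ∘ₗ LinearMap.mul' k H ∘ₗ
      (antipode k).lTensor H
    have hF : ∀ x y, F (x ⊗ₜ y) = z * (x * antipode k y) := fun x y => rfl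
    let M : H ⊗[k] (H ⊗[k] H) →ₗ[k] H ⊗[k] H := F.rTensor H ∘ₗ
      (TensorProduct.assoc k H H H).symm.toLinearMap
    have e1 : M ((comul (R := k) (A := H)).lTensor H (comul h)) = z ⊗ₜ h := by
      change F.rTensor H ((TensorProduct.assoc k H H H).symm
        ((comul (R := k) (A := H)).lTensor H (comul h))) = _
      rw [coassoc_symm_apply, ← LinearMap.comp_apply, ← LinearMap.rTensor_comp]
      have : F ∘ₗ (comul (R := k) (A := H)) = (LinearMap.toSpanSingleton k H z) ∘ₗ counit := by
        ext x
        change z * (LinearMap.mul' k H ((antipode k).lTensor H (comul x))) = _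
        rw [mul_antipode_lTensor_comul_apply]
        simp [Algebra.algebraMap_eq_smul_one]
      rw [this, LinearMap.rTensor_comp, LinearMap.comp_apply, rTensor_counit_comul]
      simp
    have e2 : ∀ x (t : H ⊗[k] H), M (x ⊗ₜ t) = P (z * x) t := by
      intro x t
      induction t using TensorProduct.induction_on with
      | zero => simp
      | tmul p q =>
        change F.rTensor H ((TensorProduct.assoc k H H H).symm (x ⊗ₜ (p ⊗ₜ q))) = _
        rw [TensorProduct.assoc_symm_tmul, LinearMap.rTensor_tmul, hF, hP, mul_assoc]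
      | add s t hs ht => rw [TensorProduct.tmul_add, map_add, map_add, hs, ht]
    have e3 : ∀ t : H ⊗[k] H, L (M ((comul (R := k) (A := H)).lTensor H t))
        = Φ (z * (TensorProduct.rid k H (counit.lTensor H t))) 1 := by
      intro t
      induction t using TensorProduct.induction_on with
      | zero => simp
      | tmul p q =>
        rw [LinearMap.lTensor_tmul, e2, fact2, LinearMap.lTensor_tmul, TensorProduct.rid_tmul,
          mul_smul_comm]
      | add s t hs ht =>
        simp only [map_add, mul_add, AddMonoidHom.add_apply, hs, ht]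
    have e4 := e3 (comul h)
    rw [e1, hL, lTensor_counit_comul] at e4
    rw [e4]
    simp
  intro x r
  rw [fact3 x r, fact3 1 (x * r), one_mul]

end

end H58Hopf
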