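import Mathlib

/-!
Finite dimensional left coideals and comatrices in a Hopf algebra over a field.
-/

open TensorProduct Coalgebra

namespace H58Hopf

section linalg

variable {k : Type*} [Field k]

theorem exists_dual {V : Type*} [AddCommGroup V] [Module k V] {ι : Type*} [DecidableEq ι]
    {b : ι → V} (li : LinearIndependent k b) (j : ι) :
    ∃ ψ : V →ₗ[k] k, ∀ i, ψ (b i) = if i = j then 1 else 0 := by
  obtain ⟨ψ, hψ⟩ := LinearMap.exists_extend ((Module.Basis.span li).coord j)
  refine ⟨ψ, fun i => ?_⟩
  have h1 : ψ ((Module.Basis.span li i : Submodule.span k (Set.range b)) : V)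
      = (Module.Basis.span li).coord j (Module.Basis.span li i) :=
    LinearMap.congr_fun hψ (Module.Basis.span li i)
  rw [Module.Basis.coord_apply, Module.Basis.repr_self, Finsupp.single_apply,
    Module.Basis.span_apply] at h1
  exact h1

theorem tmul_right_inj {M V : Type*} [AddCommGroup M] [Module k M] [AddCommGroup V] [Module k V]
    {ι : Type*} [Fintype ι] [DecidableEq ι] {b : ι → V} (li : LinearIndependent k b)
    {f g : ι → M} (h : (∑ j, f j ⊗ₜ[k] b j) = ∑ j, g j ⊗ₜ[k] b j) : f = g := by
  funext j
  obtain ⟨ψ, hψ⟩ := exists_dual li j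
  have h1 := congrArg (fun t => TensorProduct.rid k M (ψ.lTensor M t)) h
  simpa [hψ] using h1

theorem tmul_left_inj {M V : Type*} [AddCommGroup M] [Module k M] [AddCommGroup V] [Module k V]
    {ι : Type*} [Fintype ι] [DecidableEq ι] {b : ι → V} (li : LinearIndependent k b)
    {f g : ι → M} (h : (∑ j, b j ⊗ₜ[k] f j) = ∑ j, b j ⊗ₜ[k] g j) : f = g := by
  funext j
  obtain ⟨ψ, hψ⟩ := exists_dual li j
  have h1 := congrArg (fun t => TensorProduct.lid k M (ψ.rTensor M t)) h
  simpa [hψ] using h1

end linalg

section

variable {k : Type*} [Field k] {H : Type*} [Ring H] [HopfAlgebra k H]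

/-- `N` is a left coideal: `Δ(N) ⊆ H ⊗ N`. -/
def IsLCoideal (N : Submodule k H) : Prop :=
  ∀ x ∈ N, (comul x : H ⊗[k] H) ∈ LinearMap.range (N.subtype.lTensor H)

theorem exists_lcoideal_mem (x : H) :
    ∃ N : Submodule k H, N.FG ∧ x ∈ N ∧ IsLCoideal N := by
  classical
  let e := Module.Basis.ofVectorSpace k H
  obtain ⟨c, hc⟩ := TensorProduct.eq_repr_basis_left e (comul x : H ⊗[k] H)
  let N : Submodule k H := Submodule.span k (c.support.image c)
  have hmem : ∀ i, c i ∈ N := by
    intro i
    by_cases hi : c i = 0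
    · rw [hi]; exact N.zero_mem
    · exact Submodule.subset_span (by
        simp only [Finset.coe_image, Set.mem_image, Finset.mem_coe, Finsupp.mem_support_iff]
        exact ⟨i, hi, rfl⟩)
  have key : ∀ (f : H →ₗ[k] k) (t : H ⊗[k] H) (n : H), n ∈ N →
      (TensorProduct.lid k (H ⊗[k] H)) (f.rTensor (H ⊗[k] H)
        (TensorProduct.assoc k H H H (t ⊗ₜ n))) ∈ LinearMap.range (N.subtype.lTensor H) := by
    intro f t n hn
    induction t using TensorProduct.induction_on with
    | zero => simp
    | tmul a b =>
      refine ⟨f a • (b ⊗ₜ[k] (⟨n, hn⟩ : N)), ?_⟩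
      simp
    | add s t hs ht =>
      rw [TensorProduct.add_tmul, map_add, map_add, map_add]
      exact Submodule.add_mem _ hs ht
  refine ⟨N, ⟨_, rfl⟩, ?_, ?_⟩
  · have h1 : (TensorProduct.lid k H) ((counit (R := k) (A := H)).rTensor H (comul x)) = x := by
      rw [rTensor_counit_comul]; simp
    rw [← hc] at h1
    rw [← h1, Finsupp.sum, map_sum, map_sum]
    refine Submodule.sum_mem _ fun i _ => ?_
    simp only [LinearMap.rTensor_tmul, TensorProduct.lid_tmul]
    exact N.smul_mem _ (hmem i)
  · -- left coideal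
    have hco : ∀ i, (comul (c i) : H ⊗[k] H) ∈ LinearMap.range (N.subtype.lTensor H) := by
      intro i
      have h2 := coassoc_apply (R := k) x
      have h3 := congrArg (fun t => (TensorProduct.lid k (H ⊗[k] H))
        ((e.coord i).rTensor (H ⊗[k] H) t)) h2
      rw [← hc] at h3
      have h4 : (TensorProduct.lid k (H ⊗[k] H)) ((e.coord i).rTensor (H ⊗[k] H)
          ((comul (R := k) (A := H)).lTensor H (c.sum fun i n => e i ⊗ₜ[k] n))) = comul (c i) := by
        rw [Finsupp.sum, map_sum, map_sum, map_sum]
        simp only [LinearMap.lTensor_tmul, LinearMap.rTensor_tmul, TensorProduct.lid_tmul,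
          Module.Basis.coord_apply, Module.Basis.repr_self]
        rw [Finset.sum_eq_single i]
        · simp
        · intro b _ hb
          rw [Finsupp.single_eq_of_ne (by exact fun h => hb h.symm), zero_smul]
        · intro hi
          rw [Finsupp.notMem_support_iff.mp hi]; simp
      rw [← h4]
      rw [← h3, Finsupp.sum, map_sum, map_sum, map_sum, map_sum]
      refine Submodule.sum_mem _ fun j _ => ?_
      simp only [LinearMap.rTensor_tmul]
      exact key _ _ _ (hmem j)
    intro y hy
    have : N ≤ Submodule.comap (comul (R := k) (A := H)) (LinearMap.range (N.subtype.lTensor H)) := by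
      refine Submodule.span_le.mpr ?_
      intro z hz
      simp only [Finset.coe_image, Set.mem_image, Finset.mem_coe, Finsupp.mem_support_iff] at hz
      obtain ⟨i, _, rfl⟩ := hz
      exact hco i
    exact this hy

theorem IsLCoideal.sup {N M : Submodule k H} (hN : IsLCoideal N) (hM : IsLCoideal M) :
    IsLCoideal (N ⊔ M) := by
  have mono : ∀ {P Q : Submodule k H}, P ≤ Q →
      LinearMap.range (P.subtype.lTensor H) ≤ LinearMap.range (Q.subtype.lTensor H) := by
    intro P Q h
    rintro _ ⟨t, rfl⟩
    refine ⟨(Submodule.inclusion h).lTensor H t, ?_⟩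
    rw [← LinearMap.comp_apply, ← LinearMap.lTensor_comp, Submodule.subtype_comp_inclusion]
  intro x hx
  obtain ⟨y, hy, z, hz, rfl⟩ := Submodule.mem_sup.mp hx
  rw [map_add]
  exact Submodule.add_mem _ (mono le_sup_left (hN y hy)) (mono le_sup_right (hM z hz))

theorem exists_lcoideal_finset (s : Finset H) :
    ∃ N : Submodule k H, N.FG ∧ (∀ x ∈ s, x ∈ N) ∧ IsLCoideal N := by
  classical
  induction s using Finset.induction_on with
  | empty =>
    refine ⟨⊥, Submodule.fg_bot, by simp, ?_⟩
    intro x hx
    rw [Submodule.mem_bot] at hx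
    subst hx
    simp
  | insert a s _ ih =>
    obtain ⟨N, hN, hs, hc⟩ := ih
    obtain ⟨M, hM, ha, hc'⟩ := exists_lcoideal_mem (k := k) a
    refine ⟨N ⊔ M, hN.sup hM, ?_, hc.sup hc'⟩
    intro x hx
    rcases Finset.mem_insert.mp hx with rfl | hx
    · exact Submodule.mem_sup_right ha
    · exact Submodule.mem_sup_left (hs x hx)

/-- A comatrix adapted to a family `n` of linearly independent elements. -/
structure CoData (k : Type*) [Field k] (H : Type*) [Ring H] [HopfAlgebra k H]
    (m : Type*) [Fintype m] [DecidableEq m] where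
  /-- the comatrix -/
  d : Matrix m m H
  /-- basis of the left coideal -/
  n : m → H
  comul_n : ∀ i, (comul (n i) : H ⊗[k] H) = ∑ j, d i j ⊗ₜ[k] n j
  comul_d : ∀ i j, (comul (d i j) : H ⊗[k] H) = ∑ l, d i l ⊗ₜ[k] d l j
  counit_d : ∀ i j, (counit (R := k) (d i j)) = if i = j then 1 else 0
  li : LinearIndependent k n

theorem exists_codata (s : Finset H) :
    ∃ (m : ℕ) (D : CoData k H (Fin m)), ∀ x ∈ s, x ∈ Submodule.span k (Set.range D.n) := by
  classical
  obtain ⟨N, hN, hs, hc⟩ := exists_lcoideal_finset (k := k) s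
  have : Module.Finite k N := Module.Finite.iff_fg.mpr hN
  let b := Module.finBasis k N
  set m := Module.finrank k N
  have hrep : ∀ i : Fin m, ∃ f : Fin m → H,
      (comul (b i : H) : H ⊗[k] H) = ∑ j, f j ⊗ₜ[k] (b j : H) := by
    intro i
    obtain ⟨t, ht⟩ := hc (b i) (b i).2
    obtain ⟨c, hc⟩ := TensorProduct.eq_repr_basis_right b t
    refine ⟨c, ?_⟩
    rw [← ht, ← hc, Finsupp.sum, map_sum]
    rw [Finset.sum_subset (Finset.subset_univ c.support)]
    · simp
    · intro j _ hj
      rw [Finsupp.notMem_support_iff.mp hj]; simp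
  choose d hd using hrep
  have li : LinearIndependent k (fun i => (b i : H)) := by
    have := b.linearIndependent
    exact this.map' N.subtype (Submodule.ker_subtype N)
  have hcd : ∀ i j, (comul (d i j) : H ⊗[k] H) = ∑ l, d i l ⊗ₜ[k] d l j := by
    intro i
    have h1 := coassoc_apply (R := k) (b i : H)
    rw [hd i] at h1
    simp only [map_sum, LinearMap.rTensor_tmul, LinearMap.lTensor_tmul, hd,
      TensorProduct.tmul_sum] at h1
    rw [Finset.sum_comm] at h1
    have h2 := congrArg (TensorProduct.assoc k H H H).symm h1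
    simp only [map_sum, LinearEquiv.symm_apply_apply, TensorProduct.assoc_symm_tmul] at h2
    have h3 : (fun j => (comul (d i j) : H ⊗[k] H)) = fun j => ∑ l, d i l ⊗ₜ[k] d l j := by
      apply tmul_right_inj li
      rw [h2]
      refine Finset.sum_congr rfl fun j _ => ?_
      rw [TensorProduct.sum_tmul]
    exact fun j => congrFun h3 j
  have hce : ∀ i j, (counit (R := k) (d i j)) = if i = j then 1 else 0 := by
    intro i
    have h1 : (TensorProduct.lid k H) ((counit (R := k) (A := H)).rTensor H (comul (b i : H)))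
        = (b i : H) := by
      rw [rTensor_counit_comul]; simp
    rw [hd i] at h1
    simp only [map_sum, LinearMap.rTensor_tmul, TensorProduct.lid_tmul] at h1
    intro j
    have h2 : (∑ j, (counit (R := k) (d i j) - if i = j then 1 else 0) • (b j : H)) = 0 := by
      simp only [sub_smul, Finset.sum_sub_distrib, h1]
      simp
    have := Fintype.linearIndependent_iff.mp li _ h2 j
    exact sub_eq_zero.mp this
  refine ⟨m, ⟨d, fun i => b i, hd, hcd, hce, li⟩, ?_⟩
  intro x hx
  have h1 := b.sum_repr ⟨x, hs x hx⟩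
  have h2 := congrArg (N.subtype) h1
  simp only [map_sum, map_smul, Submodule.subtype_apply] at h2
  rw [← h2]
  exact Submodule.sum_mem _ fun i _ => Submodule.smul_mem _ _ (Submodule.subset_span ⟨i, rfl⟩)

end

end H58Hopf
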