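import Pool.Agent.H58.Hopf.EndDomain

/-!
If the Ore condition holds for a subring `R0`, it holds for its `k`-span.
-/

namespace H58Hopf

universe u v

theorem exists_pow_lt_two_pow (n : ℕ) : ∃ m : ℕ, (m + 1) ^ n < 2 ^ m := by
  refine ⟨2 ^ (4 * n + 4) - 1, ?_⟩
  have h0 : 0 < 2 ^ (4 * n + 4) := by positivity
  rw [Nat.sub_add_cancel h0, ← pow_mul]
  apply Nat.pow_lt_pow_right (by norm_num)
  have h1 : 2 * n + 2 < 2 ^ (2 * n + 2) := Nat.lt_two_pow_self
  have h2 : (2 * n + 2) * (2 * n + 2) < 2 ^ (2 * n + 2) * 2 ^ (2 * n + 2) :=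
    Nat.mul_lt_mul'' h1 h1
  rw [← pow_add] at h2
  have h3 : 2 * n + 2 + (2 * n + 2) = 4 * n + 4 := by ring
  rw [h3] at h2
  have h4 : (4 * n + 4) * n + 1 ≤ (2 * n + 2) * (2 * n + 2) := by nlinarith
  omega

section

variable {k : Type u} [Field k] {R : Type v} [Ring R] [Algebra k R] {a : R}
  {D : Type v} [DivisionRing D] (F : FracData a D)

namespace FracData

theorem φ_smul_mul (c : k) (r s : R) : F.φ r * F.φ (c • s) = F.φ (c • r) * F.φ s := by
  rw [F.mul, F.mul, mul_smul_comm, smul_mul_assoc, smul_mul_assoc]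

/-- the scalar `c` as an element of `D` -/
def γ (t : R) (c : k) : D := F.φ (c • t) * (F.φ t)⁻¹

variable {t : R} (ht : F.φ t ≠ 0)

include ht

theorem φ_smul_right (c : k) (r : R) : F.φ (c • r) = F.φ r * F.γ t c := by
  rw [γ, ← mul_assoc, F.φ_smul_mul, mul_assoc, mul_inv_cancel₀ ht, mul_one]

theorem φ_smul_left (c : k) (r : R) : F.φ (c • r) = F.γ t c * F.φ r := by
  have h1 : F.φ t * F.φ (c • r) = F.φ t * (F.γ t c * F.φ r) := by
    rw [F.φ_smul_mul, F.φ_smul_right ht, mul_assoc]
  exact mul_left_cancel₀ ht h1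

theorem γ_mul (c c' : k) : F.γ t (c * c') = F.γ t c * F.γ t c' := by
  have h1 : F.γ t (c * c') * F.φ t = F.γ t c * F.γ t c' * F.φ t := by
    rw [← F.φ_smul_left ht, mul_assoc, ← F.φ_smul_left ht, ← F.φ_smul_left ht, smul_smul]
  exact mul_right_cancel₀ ht h1

theorem γ_comm (c : k) {B : Set R} {x : D} (hx : F.IsFrac B x) : F.γ t c * x = x * F.γ t c := by
  obtain ⟨g, _, g', _, hg, hgx⟩ := hx
  apply mul_left_cancel₀ hg
  rw [← mul_assoc, ← F.φ_smul_right ht, F.φ_smul_left ht, mul_assoc, hgx, ← F.φ_smul_left ht,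
    F.φ_smul_right ht, ← mul_assoc, hgx]

end FracData

theorem oreOn_span (R0 : Subring R) (haR0 : a ∈ R0) (hne : ∃ b ∈ R0, F.φ b ≠ 0)
    (hore : OreOn a (R0 : Set R)) : OreOn a (Submodule.span k (R0 : Set R) : Set R) := by
  classical
  intro b hb c hc hb0 hc0
  obtain ⟨t, htR, ht⟩ := hne
  have hne : ∃ b ∈ R0, F.φ b ≠ 0 := ⟨t, htR, ht⟩
  let K0 : Subfield D := F.K R0 haR0 hne hore
  obtain ⟨n1, f1, g1, hb1⟩ := Submodule.mem_span_set'.mp hb
  obtain ⟨n2, f2, g2, hc2⟩ := Submodule.mem_span_set'.mp hc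
  let ι := Fin n1 ⊕ Fin n2
  let sc : ι → k := Sum.elim f1 f2
  let u : ι → R0 := Sum.elim g1 (fun _ => 0)
  let v : ι → R0 := Sum.elim (fun _ => 0) g2
  have hbu : b = ∑ i, sc i • (u i : R) := by
    rw [← hb1, Fintype.sum_sum_type]
    simp [sc, u]
  have hcv : c = ∑ i, sc i • (v i : R) := by
    rw [← hc2, Fintype.sum_sum_type]
    simp [sc, v]
  let mon : (ι → ℕ) → k := fun α => ∏ i, sc i ^ α i
  have hmon : ∀ (α : ι → ℕ) (i : ι), mon α * sc i = mon (fun j => α j + if j = i then 1 else 0) := by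
    intro α i
    simp only [mon, pow_add, Finset.prod_mul_distrib]
    congr 1
    rw [Finset.prod_eq_single i]
    · simp
    · intro j _ hj; simp [hj]
    · intro h; exact absurd (Finset.mem_univ i) h
  let V : ℕ → Submodule K0 D := fun m =>
    Submodule.span K0 (Set.range fun α : ι → Fin (m + 1) => F.γ t (mon fun i => (α i : ℕ)))
  have hVfin : ∀ m, FiniteDimensional K0 (V m) := fun m =>
    FiniteDimensional.span_of_finite K0 (Set.finite_range _)
  have hVcard : ∀ m, Module.finrank K0 (V m) ≤ (m + 1) ^ Fintype.card ι := by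
    intro m
    refine (finrank_range_le_card (R := K0) _).trans ?_
    simp
  have hmul : ∀ (w : ι → R0) (m : ℕ) (x : D), x ∈ V m →
      x * F.φ (∑ i, sc i • (w i : R)) ∈ V (m + 1) := by
    intro w m x hx
    induction hx using Submodule.span_induction with
    | mem x hx =>
      obtain ⟨α, rfl⟩ := hx
      rw [map_sum, Finset.mul_sum]
      refine Submodule.sum_mem _ fun i _ => ?_
      rw [F.φ_smul_left ht, ← mul_assoc, ← F.γ_mul ht, hmon]
      have h1 : F.γ t (mon fun j => (α j : ℕ) + if j = i then 1 else 0) * F.φ (w i : R)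
          = (⟨F.φ (w i : R), F.φ_mem_K haR0 hne hore (w i).2⟩ : K0) •
            F.γ t (mon fun j => (α j : ℕ) + if j = i then 1 else 0) := by
        rw [F.γ_comm ht _ (F.φ_mem_K haR0 hne hore (w i).2)]
        rfl
      rw [h1]
      refine Submodule.smul_mem _ _ (Submodule.subset_span ⟨fun j =>
        ⟨(α j : ℕ) + if j = i then 1 else 0, ?_⟩, rfl⟩)
      have := (α j).2
      split_ifs <;> omega
    | zero => rw [zero_mul]; exact Submodule.zero_mem _
    | add x y _ _ hx hy => rw [add_mul]; exact Submodule.add_mem _ hx hy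
    | smul κ x _ hx => rw [smul_mul_assoc]; exact Submodule.smul_mem _ _ hx
  have hφb : F.φ b ≠ 0 := by rw [Ne, F.zero]; exact hb0
  have hφc : F.φ c ≠ 0 := by rw [Ne, F.zero]; exact hc0
  -- a common multiple in some `V m`
  have hex : ∃ m, ∃ x ∈ V m, ∃ y ∈ V m, x * F.φ b = y * F.φ c ∧ x * F.φ b ≠ 0 := by
    by_contra hcon
    push Not at hcon
    let L : D → (D →ₗ[K0] D) := fun z =>
      { toFun := fun x => x * z
        map_add' := fun x y => add_mul x y z
        map_smul' := fun κ x => smul_mul_assoc κ x z }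
    have hL : ∀ z, z ≠ 0 → Function.Injective (L z) := fun z hz x y hxy =>
      mul_right_cancel₀ hz hxy
    have hdouble : ∀ m, 2 * Module.finrank K0 (V m) ≤ Module.finrank K0 (V (m + 1)) := by
      intro m
      have := hVfin m
      have := hVfin (m + 1)
      have h1 : (V m).map (L (F.φ b)) ⊓ (V m).map (L (F.φ c)) = ⊥ := by
        rw [eq_bot_iff]
        rintro z ⟨⟨x, hx, rfl⟩, ⟨y, hy, hxy⟩⟩
        have h2 : y * F.φ c = x * F.φ b := hxy
        exact hcon m x hx y hy h2.symm
      have h2 : (V m).map (L (F.φ b)) ⊔ (V m).map (L (F.φ c)) ≤ V (m + 1) := by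
        rw [sup_le_iff]
        constructor
        · rintro _ ⟨x, hx, rfl⟩
          change x * F.φ b ∈ V (m + 1)
          rw [hbu]; exact hmul u m x hx
        · rintro _ ⟨x, hx, rfl⟩
          change x * F.φ c ∈ V (m + 1)
          rw [hcv]; exact hmul v m x hx
      have h3 := Submodule.finrank_sup_add_finrank_inf_eq ((V m).map (L (F.φ b)))
        ((V m).map (L (F.φ c)))
      rw [h1, finrank_bot, add_zero] at h3
      have h4 : Module.finrank K0 ((V m).map (L (F.φ b))) = Module.finrank K0 (V m) :=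
        (Submodule.equivMapOfInjective _ (hL _ hφb) (V m)).finrank_eq.symm
      have h5 : Module.finrank K0 ((V m).map (L (F.φ c))) = Module.finrank K0 (V m) :=
        (Submodule.equivMapOfInjective _ (hL _ hφc) (V m)).finrank_eq.symm
      rw [h4, h5] at h3
      have h6 := Submodule.finrank_mono h2
      omega
    have hpow : ∀ m, 2 ^ m ≤ Module.finrank K0 (V m) := by
      intro m
      induction m with
      | zero =>
        have := hVfin 0
        rw [pow_zero, Nat.one_le_iff_ne_zero, Ne, Submodule.finrank_eq_zero]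
        intro h0
        have h1 : F.γ t (mon fun i => ((0 : Fin 1) : ℕ)) ∈ V 0 :=
          Submodule.subset_span ⟨fun _ => 0, rfl⟩
        rw [h0, Submodule.mem_bot] at h1
        have h2 : (mon fun i => ((0 : Fin 1) : ℕ)) = 1 := by simp [mon]
        rw [h2, FracData.γ, one_smul, mul_inv_cancel₀ ht] at h1
        exact one_ne_zero h1
      | succ m ih =>
        have := hdouble m
        rw [pow_succ]
        omega
    obtain ⟨m, hm⟩ := exists_pow_lt_two_pow (Fintype.card ι)
    exact absurd (hm.trans_le ((hpow m).trans (hVcard m))) (lt_irrefl _)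
  obtain ⟨m, x, hx, y, hy, hxy, hxy0⟩ := hex
  obtain ⟨cx, hcx⟩ := (Submodule.mem_span_range_iff_exists_fun K0).mp hx
  obtain ⟨cy, hcy⟩ := (Submodule.mem_span_range_iff_exists_fun K0).mp hy
  obtain ⟨g, hg, hg0, hgd⟩ := F.common_denom haR0 hne hore
    (Finset.univ : Finset ((ι → Fin (m + 1)) ⊕ (ι → Fin (m + 1))))
    (Sum.elim (fun α => (cx α : D)) (fun α => (cy α : D)))
    (fun i _ => by
      rcases i with α | α
      · exact (cx α).2
      · exact (cy α).2)
  have hgx : ∀ α, ∃ e ∈ R0, F.φ g * (cx α : D) = F.φ e := fun α => hgd (Sum.inl α) (Finset.mem_univ _)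
  have hgy : ∀ α, ∃ e ∈ R0, F.φ g * (cy α : D) = F.φ e := fun α => hgd (Sum.inr α) (Finset.mem_univ _)
  choose ex hexR hex using hgx
  choose ey heyR hey using hgy
  have key : ∀ (z : D) (cz : (ι → Fin (m + 1)) → K0) (ez : (ι → Fin (m + 1)) → R),
      (∑ α, cz α • F.γ t (mon fun i => (α i : ℕ))) = z → (∀ α, F.φ g * (cz α : D) = F.φ (ez α)) →
      F.φ g * z = F.φ (∑ α, (mon fun i => (α i : ℕ)) • ez α) := by
    intro z cz ez hz hez
    rw [← hz, Finset.mul_sum, map_sum]
    refine Finset.sum_congr rfl fun α _ => ?_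
    rw [F.φ_smul_right ht, ← hez, mul_assoc]
    rfl
  have hkx := key x cx ex hcx hex
  have hky := key y cy ey hcy hey
  refine ⟨∑ α, (mon fun i => (α i : ℕ)) • ex α,
    Submodule.sum_mem _ fun α _ => Submodule.smul_mem _ _ (Submodule.subset_span (hexR α)),
    ∑ α, (mon fun i => (α i : ℕ)) • ey α,
    Submodule.sum_mem _ fun α _ => Submodule.smul_mem _ _ (Submodule.subset_span (heyR α)), ?_, ?_⟩
  · rw [← sub_eq_zero, ← sub_mul, ← mul_sub, ← F.zero, map_sub, ← F.mul, ← F.mul, ← hkx, ← hky,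
      mul_assoc, mul_assoc, hxy, sub_self]
  · rw [Ne, ← F.zero, ← F.mul, ← hkx, mul_assoc]
    exact mul_ne_zero hg0 hxy0

end

end H58Hopf
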