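import Pool.Agent.H58.Hopf.General
import Pool.Agent.H58.Hopf.ScalarExt

/-!
Every noetherian Hopf algebra is countably generated.
-/

open TensorProduct Coalgebra HopfAlgebra

namespace H58Hopf

universe u v

section closure

variable {H : Type v} [Ring H] (E : H → Finset H) (o1 o2 : H → H → H)

/-- one closure step -/
def step (X : Set H) : Set H :=
  X ∪ {0, 1} ∪ Set.image2 (· + ·) X X ∪ Set.image2 (· * ·) X X ∪ (fun x => -x) '' X ∪
    (⋃ b ∈ X, (E b : Set H)) ∪ Set.image2 o1 X X ∪ Set.image2 o2 X X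

/-- iterated closure -/
def steps (X : Set H) : ℕ → Set H
  | 0 => X
  | n + 1 => step E o1 o2 (steps X n)

theorem step_countable {X : Set H} (hX : X.Countable) : (step E o1 o2 X).Countable := by
  unfold step
  refine ((((((hX.union ?_).union ?_).union ?_).union ?_).union ?_).union ?_).union ?_
  · exact (Set.countable_singleton _).insert _
  · exact hX.image2 hX _
  · exact hX.image2 hX _
  · exact hX.image _
  · exact hX.biUnion fun b _ => (E b).countable_toSet
  · exact hX.image2 hX _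
  · exact hX.image2 hX _

theorem steps_countable {X : Set H} (hX : X.Countable) (n : ℕ) : (steps E o1 o2 X n).Countable := by
  induction n with
  | zero => exact hX
  | succ n ih => exact step_countable E o1 o2 ih

theorem subset_step (X : Set H) : X ⊆ step E o1 o2 X := by
  intro x hx
  unfold step
  simp only [Set.mem_union]
  tauto

theorem steps_mono (X : Set H) : Monotone (steps E o1 o2 X) :=
  monotone_nat_of_le_succ fun _ => subset_step E o1 o2 _

theorem exists_closed {X : Set H} (hX : X.Countable) :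
    ∃ Y : Subring H, (Y : Set H).Countable ∧ X ⊆ Y ∧ (∀ b ∈ Y, ∀ x ∈ E b, x ∈ Y) ∧
      (∀ b ∈ Y, ∀ c ∈ Y, o1 b c ∈ Y) ∧ (∀ b ∈ Y, ∀ c ∈ Y, o2 b c ∈ Y) := by
  let Z : Set H := ⋃ n, steps E o1 o2 X n
  have hZ : ∀ x y, x ∈ Z → y ∈ Z → ∃ n, x ∈ steps E o1 o2 X n ∧ y ∈ steps E o1 o2 X n := by
    intro x y hx hy
    obtain ⟨n, hn⟩ := Set.mem_iUnion.mp hx
    obtain ⟨m, hm⟩ := Set.mem_iUnion.mp hy
    exact ⟨max n m, steps_mono E o1 o2 X (le_max_left n m) hn,
      steps_mono E o1 o2 X (le_max_right n m) hm⟩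
  have hstep : ∀ n x, x ∈ step E o1 o2 (steps E o1 o2 X n) → x ∈ Z := fun n x hx =>
    Set.mem_iUnion.mpr ⟨n + 1, hx⟩
  let Y : Subring H :=
    { carrier := Z
      mul_mem' := fun {x y} hx hy => by
        obtain ⟨n, hn, hm⟩ := hZ x y hx hy
        apply hstep n
        unfold step
        simp only [Set.mem_union]
        have : x * y ∈ Set.image2 (· * ·) (steps E o1 o2 X n) (steps E o1 o2 X n) :=
          ⟨x, hn, y, hm, rfl⟩
        tauto
      one_mem' := by
        apply hstep 0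
        unfold step
        simp only [Set.mem_union]
        have : (1 : H) ∈ ({0, 1} : Set H) := by simp
        tauto
      add_mem' := fun {x y} hx hy => by
        obtain ⟨n, hn, hm⟩ := hZ x y hx hy
        apply hstep n
        unfold step
        simp only [Set.mem_union]
        have : x + y ∈ Set.image2 (· + ·) (steps E o1 o2 X n) (steps E o1 o2 X n) :=
          ⟨x, hn, y, hm, rfl⟩
        tauto
      zero_mem' := by
        apply hstep 0
        unfold step
        simp only [Set.mem_union]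
        have : (0 : H) ∈ ({0, 1} : Set H) := by simp
        tauto
      neg_mem' := fun {x} hx => by
        obtain ⟨n, hn⟩ := Set.mem_iUnion.mp hx
        apply hstep n
        unfold step
        simp only [Set.mem_union]
        have : -x ∈ (fun x => -x) '' (steps E o1 o2 X n) := ⟨x, hn, rfl⟩
        tauto }
  refine ⟨Y, Set.countable_iUnion fun n => steps_countable E o1 o2 hX n,
    fun x hx => Set.mem_iUnion.mpr ⟨0, hx⟩, ?_, ?_, ?_⟩
  · intro b hb x hx
    obtain ⟨n, hn⟩ := Set.mem_iUnion.mp hb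
    apply hstep n
    unfold step
    simp only [Set.mem_union]
    have : x ∈ ⋃ b ∈ steps E o1 o2 X n, (E b : Set H) :=
      Set.mem_biUnion hn hx
    tauto
  · intro x hx y hy
    obtain ⟨n, hn, hm⟩ := hZ x y hx hy
    apply hstep n
    unfold step
    simp only [Set.mem_union]
    have : o1 x y ∈ Set.image2 o1 (steps E o1 o2 X n) (steps E o1 o2 X n) :=
      ⟨x, hn, y, hm, rfl⟩
    tauto
  · intro x hx y hy
    obtain ⟨n, hn, hm⟩ := hZ x y hx hy
    apply hstep n
    unfold step
    simp only [Set.mem_union]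
    have : o2 x y ∈ Set.image2 o2 (steps E o1 o2 X n) (steps E o1 o2 X n) :=
      ⟨x, hn, y, hm, rfl⟩
    tauto

end closure

section

variable {k : Type u} [Field k] {H : Type v} [Ring H] [HopfAlgebra k H]

theorem exists_comul_finset (b : H) : ∃ s : Finset H, (comul b : H ⊗[k] H) ∈
    Submodule.span k {z | ∃ x ∈ s, ∃ y ∈ s, z = x ⊗ₜ[k] y} := by
  classical
  let r := Coalgebra.Repr.arbitrary k b
  refine ⟨r.index.image r.left ∪ r.index.image r.right, ?_⟩
  rw [← r.eq]
  refine Submodule.sum_mem _ fun i hi => Submodule.subset_span ⟨r.left i, ?_, r.right i, ?_, rfl⟩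
  · exact Finset.mem_union_left _ (Finset.mem_image_of_mem _ hi)
  · exact Finset.mem_union_right _ (Finset.mem_image_of_mem _ hi)

theorem countably_generated (hl : IsNoetherianRing H) (hr : IsNoetherianRing Hᵐᵒᵖ) :
    ∃ X : Set H, X.Countable ∧ Algebra.adjoin k X = ⊤ := by
  classical
  obtain ⟨P, hPt, a, t0, F0, ha, ht0, hore, hat, hmain⟩ := main_principle (k := k) hl hr
  let f : H →ₐ[k] H ⧸ P := Ideal.Quotient.mkₐ k P
  have hfs : Function.Surjective f := Ideal.Quotient.mkₐ_surjective k P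
  choose E hE using exists_comul_finset (k := k) (H := H)
  -- Ore solutions
  have hsol : ∀ b c : H, ∃ e e' : H, a * f b * a ≠ 0 → a * f c * a ≠ 0 →
      a * (f e * a * f b) * a = a * (f e' * a * f c) * a ∧ a * (f e * a * f b) * a ≠ 0 := by
    intro b c
    by_cases h : a * f b * a ≠ 0 ∧ a * f c * a ≠ 0
    · obtain ⟨e, _, e', _, h1⟩ := hore (f b) trivial (f c) trivial h.1 h.2
      obtain ⟨e, rfl⟩ := hfs e
      obtain ⟨e', rfl⟩ := hfs e'
      exact ⟨e, e', fun _ _ => h1⟩
    · exact ⟨0, 0, fun h1 h2 => absurd ⟨h1, h2⟩ h⟩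
  choose o1 o2 ho using hsol
  obtain ⟨Y, hYc, hF0, hYE, hY1, hY2⟩ := exists_closed E o1 o2 F0.countable_toSet
  let B : Subalgebra k H := Algebra.adjoin k (Y : Set H)
  have hYB : ∀ y ∈ Y, y ∈ B := fun y hy => Algebra.subset_adjoin hy
  have hBspan : Subalgebra.toSubmodule B = Submodule.span k (Y : Set H) := by
    have h1 : (Submonoid.closure (Y : Set H) : Set H) = (Y : Set H) := by
      apply Set.Subset.antisymm
      · exact (Submonoid.closure_le (S := Y.toSubmonoid)).mpr (fun x hx => hx)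
      · exact Submonoid.subset_closure
    rw [Algebra.adjoin_eq_span, h1]
  have hF0B : ∀ x ∈ F0, x ∈ B := fun x hx => hYB x (hF0 hx)
  have hΔ : IsSubBialg B := by
    have h1 : B ≤ (Algebra.TensorProduct.map B.val B.val).range.comap
        (Bialgebra.comulAlgHom k H) := by
      refine Algebra.adjoin_le ?_
      intro b hb
      change (comul b : H ⊗[k] H) ∈ Subalgebra.toSubmodule
        (Algebra.TensorProduct.map B.val B.val).range
      refine Submodule.span_le.mpr ?_ (hE b)
      rintro _ ⟨x, hx, y, hy, rfl⟩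
      exact ⟨(⟨x, hYB _ (hYE b hb x hx)⟩ : B) ⊗ₜ[k] (⟨y, hYB _ (hYE b hb y hy)⟩ : B), rfl⟩
    intro b hb
    obtain ⟨t, ht⟩ := h1 hb
    exact ⟨t, ht⟩
  obtain ⟨⟨a', ha', haa⟩, ⟨t', ht', htt⟩⟩ := hat
  -- the subring of the quotient
  let R0 : Subring (H ⧸ P) := Y.map f.toRingHom
  have haR : a ∈ R0 := ⟨a', hF0 ha', haa⟩
  have htR : t0 ∈ R0 := ⟨t', hF0 ht', htt⟩
  have hspanR : ((B.map f : Subalgebra k (H ⧸ P)) : Set (H ⧸ P))
      = (Submodule.span k (R0 : Set (H ⧸ P)) : Set (H ⧸ P)) := by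
    have h1 : (R0 : Set (H ⧸ P)) = f.toLinearMap '' (Y : Set H) := rfl
    have h2 : Subalgebra.toSubmodule (B.map f) = Submodule.span k (R0 : Set (H ⧸ P)) := by
      rw [h1, Submodule.span_image, ← hBspan]
      rfl
    rw [← h2]; rfl
  have hoR : OreOn a (R0 : Set (H ⧸ P)) := by
    rintro _ ⟨b, hb, rfl⟩ _ ⟨c, hc, rfl⟩ hb0 hc0
    obtain ⟨h1, h2⟩ := ho b c hb0 hc0
    exact ⟨f (o1 b c), ⟨_, hY1 b hb c hc, rfl⟩, f (o2 b c), ⟨_, hY2 b hb c hc, rfl⟩, h1, h2⟩
  obtain ⟨D, _, F, hfrac⟩ := exists_fracData ha ⟨t0, ht0⟩ hore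
  have hoB : OreOn a (B.map f : Set (H ⧸ P)) := by
    rw [hspanR]
    exact oreOn_span F R0 haR ⟨t0, htR, by rw [Ne, F.zero]; exact ht0⟩ hoR
  have htop := hmain B hF0B hΔ hoB
  refine ⟨(Y : Set H) ∪ antipode k '' (Y : Set H), hYc.union (hYc.image _), ?_⟩
  rw [eq_top_iff, ← htop]
  exact adjoin_union_antipode (Y : Set H) B rfl

end

end H58Hopf
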