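import Pool.Agent.H58.Hopf.Antipode

/-!
Let `B` be a sub-bialgebra of a Hopf algebra with injective antipode and let `n` be a basis of a
finite dimensional left coideal.  If some nonzero `x ∈ B` satisfies `x n_i ∈ B` for all `i`, then
all `n_i` lie in the subalgebra generated by `B` and `S(B)`.
-/

open TensorProduct Coalgebra HopfAlgebra

namespace H58Hopf

section

variable {k : Type*} [Field k] {H : Type*} [Ring H] [HopfAlgebra k H]

theorem comul_coeff_mul_mem (hS : Function.Injective (antipode k : H →ₗ[k] H))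
    (B : Subalgebra k H)
    (hΔ : ∀ b ∈ B, ∃ t : B ⊗[k] B, TensorProduct.map B.val.toLinearMap B.val.toLinearMap t
      = (comul b : H ⊗[k] H))
    {m : Type*} [Fintype m] [DecidableEq m] (D : CoData k H m)
    {ι : Type*} (e : Module.Basis ι k B) (x : H) (hxn : ∀ i, x * D.n i ∈ B)
    (c : ι →₀ B) (hc : (c.sum fun i n => (e i : H) ⊗ₜ[k] (n : H)) = comul x) :
    ∀ α i, (c α : H) * D.n i ∈ B := by
  classical
  have key : ∀ f : H →ₗ[k] k, (∀ b ∈ B, f b = 0) → ∀ α j, f ((c α : H) * D.n j) = 0 := by
    intro f hf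
    let z : m → H := fun j => c.sum fun α y => f ((y : H) * D.n j) • (e α : H)
    have hz : ∀ i, ∑ j, z j * D.d i j = 0 := by
      intro i
      obtain ⟨t, ht⟩ := hΔ _ (hxn i)
      have h1 : (TensorProduct.rid k H) (f.lTensor H (comul (x * D.n i))) = 0 := by
        rw [← ht]
        clear ht
        induction t using TensorProduct.induction_on with
        | zero => simp
        | tmul p q =>
          rw [TensorProduct.map_tmul, LinearMap.lTensor_tmul]
          have : f (B.val.toLinearMap q) = 0 := hf _ q.2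
          rw [this]; simp
        | add s t hs ht => rw [map_add, map_add, map_add, hs, ht, add_zero]
      rw [Bialgebra.comul_mul, D.comul_n, ← hc, Finsupp.sum, Finset.sum_mul_sum] at h1
      simp only [Algebra.TensorProduct.tmul_mul_tmul, map_sum, LinearMap.lTensor_tmul,
        TensorProduct.rid_tmul] at h1
      simp only [z, Finsupp.sum, Finset.sum_mul, smul_mul_assoc]
      rw [Finset.sum_comm]
      exact h1
    have hz0 : ∀ j, z j = 0 := by
      have h2 : D.s.mulVec (fun j => antipode k (z j)) = 0 := by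
        funext i
        have h3 := congrArg (antipode k) (hz i)
        simp only [map_sum, HopfAlgebra.antipode_mul_antidistrib, map_zero] at h3
        simpa [Matrix.mulVec, dotProduct, CoData.s] using h3
      have h4 : D.d.mulVec (D.s.mulVec (fun j => antipode k (z j))) = 0 := by
        rw [h2, Matrix.mulVec_zero]
      rw [Matrix.mulVec_mulVec, D.d_mul_s, Matrix.one_mulVec] at h4
      intro j
      apply hS
      rw [map_zero]
      exact congrFun h4 j
    have hli : LinearIndependent k (fun α => (e α : H)) :=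
      e.linearIndependent.map' B.toSubmodule.subtype (Submodule.ker_subtype _)
    intro α j
    by_cases hα : α ∈ c.support
    · have h5 := hz0 j
      simp only [z, Finsupp.sum] at h5
      exact linearIndependent_iff'.mp hli c.support _ h5 α hα
    · rw [Finsupp.notMem_support_iff.mp hα]; simp
  intro α i
  by_contra hcon
  obtain ⟨f, hf1, hf2⟩ := Submodule.exists_le_ker_of_notMem (p := B.toSubmodule)
    (v := (c α : H) * D.n i) (by simpa using hcon)
  exact hf1 (key f (fun b hb => hf2 hb) α i)

theorem n_mem_adjoin (hS : Function.Injective (antipode k : H →ₗ[k] H))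
    (B : Subalgebra k H)
    (hΔ : ∀ b ∈ B, ∃ t : B ⊗[k] B, TensorProduct.map B.val.toLinearMap B.val.toLinearMap t
      = (comul b : H ⊗[k] H))
    {m : Type*} [Fintype m] [DecidableEq m] (D : CoData k H m)
    (x : H) (hx0 : x ≠ 0) (hx : x ∈ B) (hxn : ∀ i, x * D.n i ∈ B) :
    ∀ i, D.n i ∈ Algebra.adjoin k ((B : Set H) ∪ antipode k '' (B : Set H)) := by
  classical
  let e := Module.Basis.ofVectorSpace k B
  have hrep : ∀ x ∈ B, ∃ c : (Module.Basis.ofVectorSpaceIndex k B) →₀ B,
      (c.sum fun i n => (e i : H) ⊗ₜ[k] (n : H)) = comul x := by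
    intro x hx
    obtain ⟨t, ht⟩ := hΔ x hx
    obtain ⟨c, hc⟩ := TensorProduct.eq_repr_basis_left e t
    refine ⟨c, ?_⟩
    rw [← ht, ← hc, Finsupp.sum, Finsupp.sum, map_sum]
    rfl
  obtain ⟨c, hc⟩ := hrep x hx
  have h1 := comul_coeff_mul_mem hS B hΔ D e x hxn c hc
  have h2 : ∃ α, counit (R := k) (c α : H) ≠ 0 := by
    by_contra hcon
    push Not at hcon
    apply hx0
    have h3 : (TensorProduct.rid k H) ((counit (R := k) (A := H)).lTensor H (comul x)) = x := by
      rw [lTensor_counit_comul]; simp
    rw [← hc, Finsupp.sum] at h3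
    simp only [map_sum, LinearMap.lTensor_tmul, hcon] at h3
    simpa using h3.symm
  obtain ⟨α, hα⟩ := h2
  let y : H := (counit (R := k) (c α : H))⁻¹ • (c α : H)
  have hyB : y ∈ B := B.smul_mem (c α).2 _
  have hyn : ∀ i, y * D.n i ∈ B := by
    intro i
    rw [smul_mul_assoc]
    exact B.smul_mem (h1 α i) _
  have hy1 : counit (R := k) y = 1 := by
    simp only [y, map_smul, smul_eq_mul]
    exact inv_mul_cancel₀ hα
  obtain ⟨c', hc'⟩ := hrep y hyB
  have h4 := comul_coeff_mul_mem hS B hΔ D e y hyn c' hc'
  intro i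
  have h5 := mul_antipode_rTensor_comul_apply (R := k) y
  rw [← hc', hy1, Finsupp.sum] at h5
  simp only [map_sum, LinearMap.rTensor_tmul, LinearMap.mul'_apply, map_one] at h5
  rw [← one_mul (D.n i), ← h5, Finset.sum_mul]
  refine Subalgebra.sum_mem _ fun β _ => ?_
  rw [mul_assoc]
  refine Subalgebra.mul_mem _ ?_ ?_
  · exact Algebra.subset_adjoin (Or.inr ⟨_, (e β).2, rfl⟩)
  · exact Algebra.subset_adjoin (Or.inl (h4 β i))

end

end H58Hopf
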