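import Pool.Agent.H58.Hopf.EndDomain
import Pool.Agent.H58.Hopf.Balanced

/-!
The prime case: common left denominators.
-/

namespace H58Hopf

universe u v

open MulOpposite in
theorem exists_right_functional {D : Type v} [DivisionRing D] (L : Subfield D) {d : D}
    (hd : d ∉ L) : ∃ π : D →+ D, (∀ x, ∀ y ∈ L, π (x * y) = π x * y) ∧ (∀ y ∈ L, π y = 0) ∧
      π d ≠ 0 := by
  let f : Lᵐᵒᵖ →+* Dᵐᵒᵖ := RingHom.op L.subtype
  let _ : Module Lᵐᵒᵖ D := Module.compHom D f
  have hsmul : ∀ (c : Lᵐᵒᵖ) (x : D), c • x = x * (c.unop : D) := fun c x => rfl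
  have hd' : d ∉ Submodule.span Lᵐᵒᵖ {(1 : D)} := by
    intro h
    obtain ⟨c, hc⟩ := Submodule.mem_span_singleton.mp h
    rw [hsmul, one_mul] at hc
    exact hd (hc ▸ c.unop.2)
  obtain ⟨g, hg1, hg2⟩ := Submodule.exists_le_ker_of_notMem hd'
  have hmul : ∀ x, ∀ y (hy : y ∈ L), ((g (x * y)).unop : D) = ((g x).unop : D) * y := by
    intro x y hy
    have h1 : x * y = (op (⟨y, hy⟩ : L)) • x := rfl
    rw [h1, map_smul]
    rfl
  have h1 : g 1 = 0 := hg2 (Submodule.mem_span_singleton_self _)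
  refine ⟨{ toFun := fun x => ((g x).unop : D), map_zero' := by simp,
            map_add' := fun x y => by simp }, hmul, ?_, ?_⟩
  · intro y hy
    change ((g y).unop : D) = 0
    rw [← one_mul y, hmul 1 y hy, h1]
    simp
  · change ((g d).unop : D) ≠ 0
    intro h
    apply hg1
    have h2 : (g d).unop = 0 := Subtype.ext h
    rw [← op_unop (g d), h2]; rfl

section

variable {R : Type v} [Ring R] {a : R} {D : Type v} [DivisionRing D] (F : FracData a D)

theorem separation (hfrac : ∀ d, F.IsFrac Set.univ d) (hne : ∃ r, a * r * a ≠ 0)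
    (hore : OreOn a (Set.univ : Set R)) (S : Finset R)
    (hS : ∀ w, (∀ s ∈ S, a * w * s * a = 0) → a * w = 0)
    {ι : Type*} [Fintype ι] (e : ι → D) (x : ι → R)
    (h : ∀ s ∈ S, ∑ i, e i * F.φ (x i * s) = 0) : ∀ t, ∑ i, e i * F.φ (x i * t) = 0 := by
  classical
  have hneT : ∃ b ∈ (⊤ : Subring R), F.φ b ≠ 0 := by
    obtain ⟨t, ht⟩ := hne
    exact ⟨t, trivial, by rw [Ne, F.zero]; exact ht⟩
  obtain ⟨g, _, hg0, hg⟩ := F.common_denom (B := ⊤) trivial hneT hore Finset.univ e
    (fun i _ => hfrac (e i))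
  have hg' : ∀ i, ∃ b, F.φ g * e i = F.φ b := fun i => by
    obtain ⟨b, _, hb⟩ := hg i (Finset.mem_univ _); exact ⟨b, hb⟩
  choose b hb using hg'
  have key : ∀ t, F.φ g * ∑ i, e i * F.φ (x i * t) = F.φ ((∑ i, b i * a * x i) * t) := by
    intro t
    rw [Finset.mul_sum, Finset.sum_mul, map_sum]
    refine Finset.sum_congr rfl fun i _ => ?_
    rw [← mul_assoc, hb, F.mul]
    simp only [mul_assoc]
  have hw : a * (∑ i, b i * a * x i) = 0 := by
    apply hS
    intro s hs
    have h1 := key s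
    rw [h s hs, mul_zero] at h1
    have h2 := (F.zero _).mp h1.symm
    rw [← h2]; simp only [mul_assoc]
  intro t
  have h1 := key t
  have h2 : F.φ ((∑ i, b i * a * x i) * t) = 0 := by
    rw [F.zero, ← mul_assoc, hw]; simp
  rw [h2] at h1
  exact (mul_eq_zero.mp h1).resolve_left hg0

/-- The data that is chosen before `B`. -/
theorem exists_coords (hfrac : ∀ d, F.IsFrac Set.univ d) (hne : ∃ r, a * r * a ≠ 0)
    (hore : OreOn a (Set.univ : Set R)) (S : Finset R)
    (hS : ∀ w, (∀ s ∈ S, a * w * s * a = 0) → a * w = 0) :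
    ∃ (n : ℕ) (r : Fin n → R) (d : R → Fin n → D),
      (∀ x t, F.φ (x * t) = ∑ j, d x j * F.φ (r j * t)) ∧
      (∀ c : Fin n → D, (∀ s ∈ S, ∑ j, c j * F.φ (r j * s) = 0) → c = 0) := by
  classical
  let v : R → (S → D) := fun x s => F.φ (x * s)
  obtain ⟨κ, r, _, hspan, hli⟩ := exists_linearIndependent' D v
  have hfin : Finite κ := hli.finite
  obtain ⟨n, ⟨eq⟩⟩ := Finite.exists_equiv_fin κ
  let r' : Fin n → R := fun j => r (eq.symm j)
  have hli' : LinearIndependent D (fun j => v (r' j)) := hli.comp eq.symm eq.symm.injective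
  have hspan' : ∀ x, v x ∈ Submodule.span D (Set.range fun j => v (r' j)) := by
    intro x
    have h1 : v x ∈ Submodule.span D (Set.range v) := Submodule.subset_span ⟨x, rfl⟩
    rw [← hspan] at h1
    have h2 : Set.range (v ∘ r) = Set.range fun j => v (r' j) := by
      ext y
      constructor
      · rintro ⟨i, rfl⟩
        exact ⟨eq i, by simp [r']⟩
      · rintro ⟨j, rfl⟩
        exact ⟨eq.symm j, rfl⟩
    rwa [h2] at h1
  have hc : ∀ x, ∃ c : Fin n → D, ∑ j, c j • v (r' j) = v x := fun x =>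
    (Submodule.mem_span_range_iff_exists_fun D).mp (hspan' x)
  choose d hd using hc
  refine ⟨n, r', d, ?_, ?_⟩
  · intro x
    -- use separation with index `Option (Fin n)`
    have h1 := separation F hfrac hne hore S hS (ι := Option (Fin n))
      (fun o => o.elim 1 (fun j => - d x j)) (fun o => o.elim x r') ?_
    · intro t
      have h2 := h1 t
      rw [Fintype.sum_option] at h2
      simp only [Option.elim_none, one_mul, Option.elim_some, neg_mul,
        Finset.sum_neg_distrib] at h2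
      exact add_neg_eq_zero.mp h2
    · intro s hs
      rw [Fintype.sum_option]
      simp only [Option.elim_none, one_mul, Option.elim_some, neg_mul,
        Finset.sum_neg_distrib]
      have h3 := congrFun (hd x) ⟨s, hs⟩
      simp only [Finset.sum_apply, Pi.smul_apply, smul_eq_mul, v] at h3
      rw [h3, add_neg_cancel]
  · intro c hc
    have h1 : ∑ j, c j • v (r' j) = 0 := by
      funext s
      simp only [Finset.sum_apply, Pi.smul_apply, smul_eq_mul, v, Pi.zero_apply]
      exact hc s s.2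
    funext j
    exact Fintype.linearIndependent_iff.mp hli' c h1 j

theorem coords_unique {S : Finset R} {n : ℕ} {r : Fin n → R}
    (hu : ∀ c : Fin n → D, (∀ s ∈ S, ∑ j, c j * F.φ (r j * s) = 0) → c = 0)
    {c c' : Fin n → D}
    (h : ∀ s ∈ S, ∑ j, c j * F.φ (r j * s) = ∑ j, c' j * F.φ (r j * s)) : c = c' := by
  rw [← sub_eq_zero]
  apply hu
  intro s hs
  simp only [Pi.sub_apply, sub_mul, Finset.sum_sub_distrib, h s hs, sub_self]

/-- The main step: coordinates of all elements of `R` lie in the fractions of `B`. -/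
theorem coords_mem (S : Finset R) {n : ℕ} {r : Fin n → R} {d : R → Fin n → D}
    (hd : ∀ x t, F.φ (x * t) = ∑ j, d x j * F.φ (r j * t))
    (hu : ∀ c : Fin n → D, (∀ s ∈ S, ∑ j, c j * F.φ (r j * s) = 0) → c = 0)
    (B : Subring R) (haB : a ∈ B) (hneB : ∃ b ∈ B, F.φ b ≠ 0) (hoB : OreOn a (B : Set R))
    (hSB : ∀ s ∈ S, s ∈ B) (hrB : ∀ j, r j ∈ B) (hbal : BalancedTrivial (B : Set R)) :
    ∀ z j, d z j ∈ F.K B haB hneB hoB := by
  have dadd : ∀ x y, d (x + y) = d x + d y := by
    intro x y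
    apply coords_unique F hu
    intro s _
    rw [← hd, add_mul, map_add, hd, hd, ← Finset.sum_add_distrib]
    simp only [Pi.add_apply, add_mul]
  have dzero : d 0 = 0 := by
    have := dadd 0 0
    rw [add_zero] at this
    exact left_eq_add.mp this
  have dmul : ∀ x b i, d (x * b) i = ∑ j, d x j * d (r j * b) i := by
    intro x b
    have : d (x * b) = fun i => ∑ j, d x j * d (r j * b) i := by
      apply coords_unique F hu
      intro s _
      rw [← hd, mul_assoc, hd]
      simp only [Finset.sum_mul]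
      rw [Finset.sum_comm]
      refine Finset.sum_congr rfl fun j _ => ?_
      rw [← mul_assoc, hd (r j * b) s, Finset.mul_sum]
      refine Finset.sum_congr rfl fun i _ => ?_
      rw [mul_assoc]
    exact fun i => congrFun this i
  -- for c ∈ B the coordinates are killed by every admissible π
  have hcB : ∀ π : D →+ D, (∀ x, ∀ y ∈ F.K B haB hneB hoB, π (x * y) = π x * y) →
      (∀ y ∈ F.K B haB hneB hoB, π y = 0) → ∀ c ∈ B, ∀ j, π (d c j) = 0 := by
    intro π hπ1 hπ0 c hc j
    have h1 := hu (fun j => π (d c j)) (by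
      intro s hs
      have h2 := congrArg π (hd c s)
      rw [hπ0 _ (F.φ_mem_K haB hneB hoB (B.mul_mem hc (hSB s hs))), map_sum] at h2
      rw [h2]
      refine Finset.sum_congr rfl fun j _ => ?_
      rw [hπ1 _ _ (F.φ_mem_K haB hneB hoB (B.mul_mem (hrB j) (hSB s hs)))])
    exact congrFun h1 j
  have hcB' : ∀ c ∈ B, ∀ j, d c j ∈ F.K B haB hneB hoB := by
    intro c hc j
    by_contra hcon
    obtain ⟨π, hπ1, hπ0, hπd⟩ := exists_right_functional _ hcon
    exact hπd (hcB π hπ1 hπ0 c hc j)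
  intro z j0
  by_contra hcon
  obtain ⟨π, hπ1, hπ0, hπd⟩ := exists_right_functional _ hcon
  let Φ : R →+ R →+ D := AddMonoidHom.mk' (fun x => AddMonoidHom.mk'
    (fun t => ∑ j, π (d x j) * F.φ (r j * t)) (by
      intro t t'
      simp only [mul_add, map_add, Finset.sum_add_distrib])) (by
      intro x x'
      ext t
      simp only [dadd, Pi.add_apply, map_add, add_mul, Finset.sum_add_distrib,
        AddMonoidHom.mk'_apply, AddMonoidHom.add_apply])
  have hΦ : ∀ x t, Φ x t = ∑ j, π (d x j) * F.φ (r j * t) := fun x t => rfl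
  have hb := hbal D Φ (by
    intro x b hb t
    rw [hΦ, hΦ]
    simp only [dmul x b, map_sum, Finset.sum_mul]
    rw [Finset.sum_comm]
    refine Finset.sum_congr rfl fun j _ => ?_
    rw [← mul_assoc (r j) b t, hd (r j * b) t, Finset.mul_sum]
    refine Finset.sum_congr rfl fun i _ => ?_
    rw [hπ1 _ _ (hcB' _ (B.mul_mem (hrB j) hb) i), mul_assoc])
  have h1 : ∀ t, Φ z t = 0 := by
    intro t
    rw [hb z t, hΦ]
    refine Finset.sum_eq_zero fun j _ => ?_
    rw [hπ0 _ (hcB' 1 B.one_mem j), zero_mul]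
  have h2 := hu (fun j => π (d z j)) (fun s _ => by rw [← hΦ]; exact h1 s)
  exact hπd (congrFun h2 j0)

theorem prime_denominators (S : Finset R)
    (hS : ∀ w, (∀ s ∈ S, a * w * s * a = 0) → a * w = 0)
    {n : ℕ} {r : Fin n → R} {d : R → Fin n → D}
    (hd : ∀ x t, F.φ (x * t) = ∑ j, d x j * F.φ (r j * t))
    (hu : ∀ c : Fin n → D, (∀ s ∈ S, ∑ j, c j * F.φ (r j * s) = 0) → c = 0)
    (B : Subring R) (haB : a ∈ B) (hneB : ∃ b ∈ B, F.φ b ≠ 0) (hoB : OreOn a (B : Set R))
    (hSB : ∀ s ∈ S, s ∈ B) (hrB : ∀ j, r j ∈ B) (hbal : BalancedTrivial (B : Set R))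
    (Z : Finset R) : ∃ y ∈ B, y ≠ 0 ∧ ∀ z ∈ Z, y * z ∈ B := by
  classical
  have hmem := coords_mem F S hd hu B haB hneB hoB hSB hrB hbal
  obtain ⟨g, hg, hg0, hgd⟩ := F.common_denom haB hneB hoB (Z ×ˢ (Finset.univ : Finset (Fin n)))
    (fun p => d p.1 p.2) (fun p _ => hmem p.1 p.2)
  refine ⟨a * g * a, B.mul_mem (B.mul_mem haB hg) haB, ?_, ?_⟩
  · rw [Ne, ← F.zero]; exact hg0
  · intro z hz
    have hz' : ∀ j, ∃ b ∈ B, F.φ g * d z j = F.φ b := fun j =>
      hgd (z, j) (Finset.mem_product.mpr ⟨hz, Finset.mem_univ _⟩)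
    choose b hbB hb using hz'
    have h1 : a * (g * a * z - ∑ j, b j * a * r j) = 0 := by
      apply hS
      intro s _
      have h2 : F.φ ((g * a * z - ∑ j, b j * a * r j) * s) = 0 := by
        rw [sub_mul, map_sub, Finset.sum_mul, map_sum, sub_eq_zero]
        rw [mul_assoc (g * a), ← F.mul, hd z s, Finset.mul_sum]
        refine Finset.sum_congr rfl fun j _ => ?_
        rw [← mul_assoc, hb j, F.mul]
        simp only [mul_assoc]
      have h3 := (F.zero _).mp h2
      rw [← h3]; simp only [mul_assoc]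
    rw [mul_sub, sub_eq_zero] at h1
    have h4 : a * g * a * z = a * (g * a * z) := by simp only [mul_assoc]
    rw [h4, h1]
    exact B.mul_mem haB (B.sum_mem fun j _ => B.mul_mem (B.mul_mem (hbB j) haB) (hrB j))

end

end H58Hopf
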