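import Pool.Agent.H58.Hopf.Frac

/-!
Construction of the division ring of fractions.
-/

namespace H58Hopf

universe u v

/-- `a` has a maximal right annihilator among the nonzero elements. -/
def MaxAnn' {R : Type*} [Ring R] (a : R) : Prop :=
  ∀ x : R, x ≠ 0 → (∀ r, a * r = 0 → x * r = 0) → ∀ r, x * r = 0 → a * r = 0

theorem MaxAnn'.maxAnn {R : Type*} [Ring R] {a : R} (h : MaxAnn' a) : MaxAnn a :=
  fun s r hs h0 => h (s * a) hs (fun r hr => by rw [mul_assoc, hr, mul_zero]) r h0

theorem cancel_right {E : Type*} [Ring E] [NoZeroDivisors E] {p q t : E} (h : p * t = q * t)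
    (ht : t ≠ 0) : p = q := by
  rw [← sub_eq_zero, ← sub_mul] at h
  exact sub_eq_zero.mp ((mul_eq_zero.mp h).resolve_right ht)

section

variable {R : Type v} [Ring R] (a : R)

/-- the right ideal `aR` -/
abbrev aR : Submodule Rᵐᵒᵖ R := Submodule.span Rᵐᵒᵖ {a}

/-- `a` as an element of `aR` -/
def a0 : aR a := ⟨a, Submodule.mem_span_singleton_self a⟩

theorem exists_eq_smul (m : aR a) : ∃ r : R, m = MulOpposite.op r • a0 a := by
  obtain ⟨c, hc⟩ := Submodule.mem_span_singleton.mp m.2
  exact ⟨c.unop, Subtype.ext hc.symm⟩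

theorem coe_smul_a0 (r : R) : ((MulOpposite.op r • a0 a : aR a) : R) = a * r := rfl

/-- left multiplication by `a * r` on `aR` -/
def tau : R →+ Module.End Rᵐᵒᵖ (aR a) where
  toFun r :=
    { toFun := fun m => ⟨a * r * m, by
        obtain ⟨s, hs⟩ := exists_eq_smul a m
        rw [hs, coe_smul_a0, mul_assoc]
        exact Submodule.mem_span_singleton.mpr ⟨MulOpposite.op (r * (a * s)), rfl⟩⟩
      map_add' := fun m m' => Subtype.ext (mul_add _ _ _)
      map_smul' := fun c m => Subtype.ext (by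
        change a * r * ((m : R) * c.unop) = a * r * m * c.unop
        simp only [mul_assoc]) }
  map_zero' := by
    ext m
    change a * 0 * (m : R) = 0
    simp
  map_add' := fun r s => by
    ext m
    change a * (r + s) * (m : R) = a * r * m + a * s * m
    rw [mul_add, add_mul]

theorem tau_apply (r : R) (m : aR a) : ((tau a r m : aR a) : R) = a * r * m := rfl

theorem tau_mul (r s : R) : tau a r * tau a s = tau a (r * a * s) := by
  ext m
  change a * r * (a * s * (m : R)) = a * (r * a * s) * m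
  simp only [mul_assoc]

theorem end_eq_zero_iff (f : Module.End Rᵐᵒᵖ (aR a)) : f = 0 ↔ f (a0 a) = 0 := by
  constructor
  · rintro rfl; rfl
  · intro h
    ext m
    obtain ⟨s, rfl⟩ := exists_eq_smul a m
    rw [map_smul, h, smul_zero]; rfl

theorem tau_eq_zero_iff (r : R) : tau a r = 0 ↔ a * r * a = 0 := by
  rw [end_eq_zero_iff, ← Subtype.coe_inj]
  exact Iff.rfl

theorem tau_congr {x y : R} (h : a * x * a = a * y * a) : tau a x = tau a y := by
  have h1 : tau a (x - y) = 0 :=
    (tau_eq_zero_iff a _).mpr (by rw [mul_sub, sub_mul, h, sub_self])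
  have h2 : tau a x = tau a (x - y) + tau a y := by rw [← map_add, sub_add_cancel]
  rw [h2, h1, zero_add]

theorem mul_tau (f : Module.End Rᵐᵒᵖ (aR a)) : ∃ x : R, ∀ t, f * tau a t = tau a (x * t) := by
  obtain ⟨x, hx⟩ := exists_eq_smul a (f (a0 a))
  refine ⟨x, fun t => ?_⟩
  rw [← sub_eq_zero, end_eq_zero_iff]
  have h1 : tau a t (a0 a) = MulOpposite.op (t * a) • a0 a := Subtype.ext (mul_assoc a t a)
  have h2 : (f * tau a t) (a0 a) = MulOpposite.op (t * a) • f (a0 a) := by
    rw [Module.End.mul_apply, h1, map_smul]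
  rw [LinearMap.sub_apply, h2, hx, sub_eq_zero]
  apply Subtype.ext
  change a * x * (t * a) = a * (x * t) * a
  simp only [mul_assoc]

variable {a}

theorem noZeroDivisors_end (ha : MaxAnn' a) : NoZeroDivisors (Module.End Rᵐᵒᵖ (aR a)) where
  eq_zero_or_eq_zero_of_mul_eq_zero := by
    intro f g hfg
    by_contra hcon
    push Not at hcon
    obtain ⟨hf, hg⟩ := hcon
    apply hg
    rw [end_eq_zero_iff]
    obtain ⟨r, hr⟩ := exists_eq_smul a (g (a0 a))
    have h1 : f (g (a0 a)) = 0 := by
      rw [← Module.End.mul_apply, hfg]; rfl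
    rw [hr, map_smul] at h1
    have h2 : ((f (a0 a) : aR a) : R) * r = 0 := congrArg Subtype.val h1
    have h3 : ((f (a0 a) : aR a) : R) ≠ 0 := by
      intro h; apply hf; rw [end_eq_zero_iff]; exact Subtype.ext h
    have h4 := ha _ h3 (by
      intro s hs
      have : MulOpposite.op s • a0 a = 0 := Subtype.ext hs
      have h5 : f (MulOpposite.op s • a0 a) = 0 := by rw [this, map_zero]
      rw [map_smul] at h5
      exact congrArg Subtype.val h5) r h2
    rw [hr]
    exact Subtype.ext h4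

theorem exists_fracData (ha : MaxAnn' a) (hne : ∃ r, a * r * a ≠ 0)
    (hore : OreOn a (Set.univ : Set R)) :
    ∃ (D : Type v) (_ : DivisionRing D) (F : FracData a D), ∀ d, F.IsFrac Set.univ d := by
  obtain ⟨t, ht⟩ := hne
  have ht0 : tau a t ≠ 0 := by rw [Ne, tau_eq_zero_iff]; exact ht
  have := noZeroDivisors_end ha
  have hnt : Nontrivial (Module.End Rᵐᵒᵖ (aR a)) := ⟨tau a t, 0, ht0⟩
  obtain ⟨D, iD, j, hj, hfrac⟩ := exists_divisionRing (E := Module.End Rᵐᵒᵖ (aR a)) (by
    intro r s hs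
    by_cases hr : r = 0
    · exact ⟨0, 1, one_ne_zero, by rw [hr]; simp⟩
    · obtain ⟨x, hx⟩ := mul_tau a r
      obtain ⟨y, hy⟩ := mul_tau a s
      have h1 : a * (x * t) * a ≠ 0 := by
        rw [Ne, ← tau_eq_zero_iff, ← hx]; exact mul_ne_zero hr ht0
      have h2 : a * (y * t) * a ≠ 0 := by
        rw [Ne, ← tau_eq_zero_iff, ← hy]; exact mul_ne_zero hs ht0
      obtain ⟨e, _, e', _, h3, h4⟩ := hore _ trivial _ trivial h1 h2
      refine ⟨tau a e', tau a e, ?_, ?_⟩
      · intro h
        apply h4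
        rw [← tau_eq_zero_iff, ← tau_mul, h, zero_mul]
      · apply cancel_right _ ht0
        rw [mul_assoc, mul_assoc, hx, hy, tau_mul, tau_mul, tau_congr a h3])
  let F : FracData a D :=
    { φ := j.toAddMonoidHom.comp (tau a)
      mul := fun r s => by
        change j (tau a r) * j (tau a s) = j (tau a (r * a * s))
        rw [← map_mul, tau_mul]
      zero := fun r => by
        change j (tau a r) = 0 ↔ _
        rw [map_eq_zero_iff j hj, tau_eq_zero_iff] }
  have hF : ∀ r, F.φ r = j (tau a r) := fun r => rfl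
  refine ⟨D, iD, F, fun d => ?_⟩
  have hneT : ∃ b ∈ (⊤ : Subring R), F.φ b ≠ 0 :=
    ⟨t, trivial, by rw [Ne, F.zero]; exact ht⟩
  have hK : ∀ f, j f ∈ F.K ⊤ trivial hneT hore := by
    intro f
    obtain ⟨x, hx⟩ := mul_tau a f
    have h1 : j f * F.φ t = F.φ (x * t) := by rw [hF, hF, ← map_mul, hx]
    have h2 : j f = F.φ (x * t) * (F.φ t)⁻¹ := by
      rw [← h1, mul_assoc, mul_inv_cancel₀, mul_one]
      rw [Ne, F.zero]; exact ht
    rw [h2]
    exact mul_mem (F.φ_mem_K (B := ⊤) trivial hneT hore trivial)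
      (inv_mem (F.φ_mem_K (B := ⊤) trivial hneT hore trivial))
  obtain ⟨s, r, hs, hd⟩ := hfrac d
  have h1 : d = (j s)⁻¹ * j r := by
    rw [← hd, ← mul_assoc, inv_mul_cancel₀, one_mul]
    rwa [Ne, map_eq_zero_iff j hj]
  have h2 : d ∈ F.K ⊤ trivial hneT hore := by
    rw [h1]; exact mul_mem (inv_mem (hK s)) (hK r)
  exact h2

end

end H58Hopf
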