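import Pool.Agent.H58.Hopf.Main

/-!
A Hopf algebra whose augmentation ideal is a finitely generated right ideal is epimorphically
finitely generated.
-/

open TensorProduct Coalgebra HopfAlgebra

namespace H58Hopf

universe u v w

section

variable {k : Type u} [Field k] {H : Type v} [Ring H] [HopfAlgebra k H]

theorem ringHom_eq_of_eqOn {R : Type w} [Ring R] (B : Subalgebra k H)
    (hΔ : ∀ b ∈ B, (comul b : H ⊗[k] H) ∈ LinearMap.range (B.val.toLinearMap.lTensor H))
    (hgen : ∀ x : H, counit (R := k) x = 0 →
      x ∈ Submodule.span Hᵐᵒᵖ {b : H | b ∈ B ∧ counit (R := k) b = 0})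
    (f g : H →+* R) (hfg : ∀ b ∈ B, f b = g b) : f = g := by
  -- the balanced map `(x, y) ↦ f x * g y`
  let Φ : H →+ H →+ R := AddMonoidHom.mk' (fun x => (AddMonoidHom.mulLeft (f x)).comp
    g.toAddMonoidHom) (by
      intro x y
      ext z
      change f (x + y) * g z = f x * g z + f y * g z
      rw [map_add, add_mul])
  have hΦ : ∀ x y, Φ x y = f x * g y := fun x y => rfl
  have hsm : ∀ (r : k) (m n : H), Φ (r • m) n = Φ m (r • n) := by
    intro r m n
    rw [hΦ, hΦ, Algebra.smul_def, Algebra.smul_def, Algebra.commutes, map_mul, map_mul, mul_assoc,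
      hfg _ (B.algebraMap_mem r)]
  let L : H ⊗[k] H →+ R := TensorProduct.liftAddHom Φ hsm
  have hL : ∀ x y, L (x ⊗ₜ y) = f x * g y := fun x y => rfl
  let P : H ⊗[k] H →ₗ[k] H ⊗[k] H := (antipode k).rTensor H
  have hP : ∀ x y, P (x ⊗ₜ y) = antipode k x ⊗ₜ y := fun x y => rfl
  -- T h = ∑ f (S h₁) g (h₂)
  have fact1 : ∀ b h, b ∈ B → counit (R := k) b = 0 → L (P (comul (b * h))) = 0 := by
    intro b h hb hb0
    obtain ⟨t, ht⟩ := hΔ b hb
    have gen : ∀ (t : H ⊗[k] B) (p q : H),
        L (P ((B.val.toLinearMap.lTensor H t) * (p ⊗ₜ[k] q)))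
          = f (antipode k p) * f (LinearMap.mul' k H ((antipode k).rTensor H
              (B.val.toLinearMap.lTensor H t))) * g q := by
      intro t p q
      induction t using TensorProduct.induction_on with
      | zero => simp
      | tmul x c =>
        simp only [LinearMap.lTensor_tmul, LinearMap.rTensor_tmul, LinearMap.mul'_apply,
          Algebra.TensorProduct.tmul_mul_tmul, hP, hL]
        rw [HopfAlgebra.antipode_mul_antidistrib, map_mul, map_mul, map_mul, mul_assoc,
          mul_assoc, mul_assoc]
        congr 2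
        have : f ((B.val.toLinearMap) c) = g ((B.val.toLinearMap) c) := hfg _ c.2
        rw [this]
      | add s t hs ht =>
        simp only [map_add, add_mul, mul_add, hs, ht]
    have gen2 : ∀ s : H ⊗[k] H, L (P ((B.val.toLinearMap.lTensor H t) * s)) = 0 := by
      intro s
      induction s using TensorProduct.induction_on with
      | zero => simp
      | tmul p q =>
        rw [gen, ht, mul_antipode_rTensor_comul_apply, hb0]
        simp
      | add s t hs ht => rw [mul_add, map_add, map_add, hs, ht, add_zero]
    rw [Bialgebra.comul_mul, ← ht]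
    exact gen2 _
  have fact2 : ∀ h, L (P (comul h)) = f (algebraMap k H (counit (R := k) h)) := by
    intro h
    have h1 : ∀ x : H, x ∈ Submodule.span Hᵐᵒᵖ {b : H | b ∈ B ∧ counit (R := k) b = 0} →
        L (P (comul x)) = 0 := by
      intro x hx
      refine Submodule.closure_induction (p := fun x _ => L (P (comul x)) = 0) ?_ ?_ ?_ hx
      · simp
      · intro x y _ _ hx hy
        rw [map_add, map_add, map_add, hx, hy, add_zero]
      · intro r x hx
        exact fact1 x r.unop hx.1 hx.2
    have h2 := h1 (h - algebraMap k H (counit h)) (hgen _ (by simp))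
    rw [map_sub, map_sub, map_sub, sub_eq_zero] at h2
    rw [h2, Algebra.algebraMap_eq_smul_one, map_smul, map_smul, Bialgebra.comul_one,
      Algebra.TensorProduct.one_def, hP, TensorProduct.smul_tmul', hL]
    simp
  have key : ∀ h, g h = f h := by
    intro h
    -- evaluate ∑ f (h₁) f (S h₂) g (h₃) in two ways
    let F : H ⊗[k] H →ₗ[k] H := LinearMap.mul' k H ∘ₗ (antipode k).lTensor H
    have hF : ∀ x y, F (x ⊗ₜ y) = x * antipode k y := fun x y => rfl
    let M : H ⊗[k] (H ⊗[k] H) →ₗ[k] H ⊗[k] H := F.rTensor H ∘ₗ
      (TensorProduct.assoc k H H H).symm.toLinearMap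
    have e1 : M ((comul (R := k) (A := H)).lTensor H (comul h)) = 1 ⊗ₜ h := by
      change F.rTensor H ((TensorProduct.assoc k H H H).symm
        ((comul (R := k) (A := H)).lTensor H (comul h))) = _
      rw [coassoc_symm_apply, ← LinearMap.comp_apply, ← LinearMap.rTensor_comp]
      have : F ∘ₗ (comul (R := k) (A := H)) = (LinearMap.toSpanSingleton k H 1) ∘ₗ counit := by
        ext x
        change LinearMap.mul' k H ((antipode k).lTensor H (comul x)) = _
        rw [mul_antipode_lTensor_comul_apply]
        simp [Algebra.algebraMap_eq_smul_one]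
      rw [this, LinearMap.rTensor_comp, LinearMap.comp_apply, rTensor_counit_comul]
      simp
    have e2 : ∀ x (t : H ⊗[k] H), L (M (x ⊗ₜ t)) = f x * L (P t) := by
      intro x t
      induction t using TensorProduct.induction_on with
      | zero => simp
      | tmul p q =>
        change L (F.rTensor H ((TensorProduct.assoc k H H H).symm (x ⊗ₜ (p ⊗ₜ q)))) = _
        rw [TensorProduct.assoc_symm_tmul, LinearMap.rTensor_tmul, hF, hP, hL, hL, map_mul,
          mul_assoc]
      | add s t hs ht =>
        rw [TensorProduct.tmul_add, map_add, map_add, hs, ht, map_add, map_add, mul_add]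
    have e3 : ∀ t : H ⊗[k] H, L (M ((comul (R := k) (A := H)).lTensor H t))
        = f (TensorProduct.rid k H (counit.lTensor H t)) := by
      intro t
      induction t using TensorProduct.induction_on with
      | zero => simp
      | tmul p q =>
        rw [LinearMap.lTensor_tmul, e2, fact2, LinearMap.lTensor_tmul, TensorProduct.rid_tmul,
          ← map_mul, ← Algebra.commutes, ← Algebra.smul_def]
      | add s t hs ht => simp only [map_add, hs, ht]
    have e4 := e3 (comul h)
    rw [e1, hL, lTensor_counit_comul, map_one, one_mul] at e4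
    rw [e4]
    simp
  exact RingHom.ext fun h => (key h).symm

/-- epimorphic finite generation -/
theorem exists_finset_epi (hr : IsNoetherianRing Hᵐᵒᵖ) :
    ∃ F : Finset H, ∀ (R : Type w) [Ring R] (f g : H →+* R),
      (∀ c : k, f (algebraMap k H c) = g (algebraMap k H c)) → (∀ x ∈ F, f x = g x) → f = g := by
  classical
  have hrH : IsNoetherian Hᵐᵒᵖ H := isNoetherian_op_of_ring hr
  let Aug : Submodule Hᵐᵒᵖ H :=
    { carrier := {x | counit (R := k) x = 0}
      zero_mem' := map_zero _
      add_mem' := fun {x y} hx hy => by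
        change counit (R := k) (x + y) = 0
        rw [map_add, hx, hy, add_zero]
      smul_mem' := fun c x hx => by
        change counit (R := k) (x * c.unop) = 0
        rw [Bialgebra.counit_mul, hx, zero_mul] }
  obtain ⟨G, hG⟩ := (IsNoetherian.noetherian Aug : Aug.FG)
  obtain ⟨m, E, hE⟩ := exists_codata (k := k) G
  let B : Subalgebra k H := Algebra.adjoin k (Set.range fun p : Fin m × Fin m => E.d p.1 p.2)
  have hBE : ∀ i j, E.d i j ∈ B := fun i j => Algebra.subset_adjoin ⟨(i, j), rfl⟩
  have hGB : ∀ x ∈ G, x ∈ B := fun x hx => E.mem_of_entries B hBE (hE x hx)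
  have hΔ := comul_mem_adjoin E B rfl
  refine ⟨Finset.univ.image fun p : Fin m × Fin m => E.d p.1 p.2, ?_⟩
  intro R _ f g hk hF
  apply ringHom_eq_of_eqOn B (comul_mem_left B hΔ) ?_ f g ?_
  · intro x hx
    have h1 : x ∈ Aug := hx
    rw [← hG] at h1
    refine Submodule.span_mono ?_ h1
    intro y hy
    refine ⟨hGB y hy, ?_⟩
    have : y ∈ Aug := by rw [← hG]; exact Submodule.subset_span hy
    exact this
  · intro b hb
    induction hb using Algebra.adjoin_induction with
    | mem x hx =>
      obtain ⟨p, rfl⟩ := hx
      exact hF _ (Finset.mem_image_of_mem _ (Finset.mem_univ p))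
    | algebraMap r => exact hk r
    | add x y _ _ hx hy => rw [map_add, map_add, hx, hy]
    | mul x y _ _ hx hy => rw [map_mul, map_mul, hx, hy]

end

end H58Hopf
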