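import Pool.Agent.H58.Hopf.Ore

/-!
The division ring of fractions of the local domain `(R, r * r' = r a r')` modulo
`{r : a r a = 0}`.
-/

namespace H58Hopf

universe u v

/-- `D` is a division ring receiving `R` (with the product `r a r'`) with kernel `{a r a = 0}`. -/
structure FracData {R : Type v} [Ring R] (a : R) (D : Type v) [DivisionRing D] where
  /-- the map -/
  φ : R →+ D
  mul : ∀ r r', φ r * φ r' = φ (r * a * r')
  zero : ∀ r, φ r = 0 ↔ a * r * a = 0

namespace FracData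

variable {R : Type v} [Ring R] {a : R} {D : Type v} [DivisionRing D] (F : FracData a D)

theorem ore {B : Set R} (h : OreOn a B) {b c : R} (hb : b ∈ B) (hc : c ∈ B)
    (hb0 : F.φ b ≠ 0) (hc0 : F.φ c ≠ 0) :
    ∃ e ∈ B, ∃ e' ∈ B, F.φ e * F.φ b = F.φ e' * F.φ c ∧ F.φ e ≠ 0 := by
  obtain ⟨e, he, e', he', h1, h2⟩ := h b hb c hc (fun h => hb0 ((F.zero b).mpr h))
    (fun h => hc0 ((F.zero c).mpr h))
  refine ⟨e, he, e', he', ?_, ?_⟩
  · rw [F.mul, F.mul, ← sub_eq_zero, ← map_sub, F.zero, mul_sub, sub_mul, h1, sub_self]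
  · intro h3
    apply h2
    rw [← F.zero, ← F.mul, h3, zero_mul]

/-- left fractions with numerator and denominator in `B`. -/
def IsFrac (B : Set R) (d : D) : Prop := ∃ g ∈ B, ∃ g' ∈ B, F.φ g ≠ 0 ∧ F.φ g * d = F.φ g'

/-- The division subring of fractions of elements of `B`. -/
def K (B : Subring R) (ha : a ∈ B) (hne : ∃ b ∈ B, F.φ b ≠ 0) (h : OreOn a (B : Set R)) :
    Subfield D where
  carrier := {d | F.IsFrac B d}
  mul_mem' := by
    rintro d e ⟨g, hg, g', hg', hg0, hd⟩ ⟨f, hf, f', hf', hf0, he⟩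
    by_cases h0 : F.φ g' = 0
    · have : d = 0 := by
        rw [h0] at hd
        exact (mul_eq_zero.mp hd).resolve_left hg0
      subst this
      exact ⟨g, hg, 0, B.zero_mem, hg0, by simp⟩
    · obtain ⟨p, hp, q, hq, h1, h2⟩ := F.ore h hg' hf h0 hf0
      refine ⟨p * a * g, B.mul_mem (B.mul_mem hp ha) hg, q * a * f',
        B.mul_mem (B.mul_mem hq ha) hf', ?_, ?_⟩
      · rw [← F.mul]; exact mul_ne_zero h2 hg0
      · rw [← F.mul, ← F.mul, ← he, ← mul_assoc (F.φ q), ← h1, ← hd]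
        simp only [mul_assoc]
  one_mem' := by
    obtain ⟨b, hb, hb0⟩ := hne
    exact ⟨b, hb, b, hb, hb0, by simp⟩
  add_mem' := by
    rintro d e ⟨g, hg, g', hg', hg0, hd⟩ ⟨f, hf, f', hf', hf0, he⟩
    obtain ⟨p, hp, q, hq, h1, h2⟩ := F.ore h hg hf hg0 hf0
    refine ⟨p * a * g, B.mul_mem (B.mul_mem hp ha) hg, p * a * g' + q * a * f',
      B.add_mem (B.mul_mem (B.mul_mem hp ha) hg') (B.mul_mem (B.mul_mem hq ha) hf'), ?_, ?_⟩
    · rw [← F.mul]; exact mul_ne_zero h2 hg0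
    · rw [map_add, ← F.mul, ← F.mul, ← F.mul, mul_add, ← hd, ← he]
      conv_lhs => rw [h1]
      rw [← h1]
      simp only [mul_assoc]
      rw [← mul_assoc (F.φ q), ← h1]
      simp only [mul_assoc]
  zero_mem' := by
    obtain ⟨b, hb, hb0⟩ := hne
    exact ⟨b, hb, 0, B.zero_mem, hb0, by simp⟩
  neg_mem' := by
    rintro d ⟨g, hg, g', hg', hg0, hd⟩
    exact ⟨g, hg, -g', B.neg_mem hg', hg0, by rw [mul_neg, hd, map_neg]⟩
  inv_mem' := by
    rintro d ⟨g, hg, g', hg', hg0, hd⟩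
    by_cases hd0 : d = 0
    · subst hd0
      exact ⟨g, hg, 0, B.zero_mem, hg0, by simp⟩
    · refine ⟨g', hg', g, hg, ?_, ?_⟩
      · rw [← hd]; exact mul_ne_zero hg0 hd0
      · rw [← hd, mul_assoc, mul_inv_cancel₀ hd0, mul_one]

theorem φ_mem_K {B : Subring R} (ha : a ∈ B) (hne : ∃ b ∈ B, F.φ b ≠ 0)
    (h : OreOn a (B : Set R)) {b : R} (hb : b ∈ B) : F.φ b ∈ F.K B ha hne h := by
  obtain ⟨g, hg, hg0⟩ := hne
  exact ⟨g, hg, g * a * b, B.mul_mem (B.mul_mem hg ha) hb, hg0, F.mul _ _⟩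

theorem common_denom {B : Subring R} (ha : a ∈ B) (hne : ∃ b ∈ B, F.φ b ≠ 0)
    (h : OreOn a (B : Set R)) {ι : Type*} (s : Finset ι) (d : ι → D)
    (hd : ∀ i ∈ s, d i ∈ F.K B ha hne h) :
    ∃ g ∈ B, F.φ g ≠ 0 ∧ ∀ i ∈ s, ∃ b ∈ B, F.φ g * d i = F.φ b := by
  classical
  induction s using Finset.induction_on with
  | empty =>
    obtain ⟨g, hg, hg0⟩ := hne
    exact ⟨g, hg, hg0, by simp⟩
  | insert i s _ ih =>
    obtain ⟨g, hg, hg0, hs⟩ := ih (fun j hj => hd j (Finset.mem_insert_of_mem hj))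
    obtain ⟨f, hf, f', hf', hf0, hfi⟩ := hd i (Finset.mem_insert_self _ _)
    obtain ⟨p, hp, q, hq, h1, h2⟩ := F.ore h hg hf hg0 hf0
    refine ⟨p * a * g, B.mul_mem (B.mul_mem hp ha) hg, ?_, ?_⟩
    · rw [← F.mul]; exact mul_ne_zero h2 hg0
    · intro j hj
      rcases Finset.mem_insert.mp hj with rfl | hj
      · refine ⟨q * a * f', B.mul_mem (B.mul_mem hq ha) hf', ?_⟩
        rw [← F.mul, h1, mul_assoc, hfi, F.mul]
      · obtain ⟨b, hb, hb1⟩ := hs j hj
        refine ⟨p * a * b, B.mul_mem (B.mul_mem hp ha) hb, ?_⟩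
        rw [← F.mul, mul_assoc, hb1, F.mul]

end FracData

open nonZeroDivisors in
theorem exists_divisionRing {E : Type v} [Ring E] [Nontrivial E] [NoZeroDivisors E]
    (hore : ∀ r s : E, s ≠ 0 → ∃ r' s', s' ≠ 0 ∧ s' * r = r' * s) :
    ∃ (D : Type v) (_ : DivisionRing D) (j : E →+* D), Function.Injective j ∧
      ∀ d : D, ∃ s r : E, s ≠ 0 ∧ j s * d = j r := by
  have h1 : Nonempty (OreLocalization.OreSet (E⁰)) := by
    rw [OreLocalization.nonempty_oreSet_iff_of_noZeroDivisors]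
    intro r s
    obtain ⟨r', s', hs', h⟩ := hore r s (nonZeroDivisors.ne_zero s.2)
    exact ⟨r', ⟨s', mem_nonZeroDivisors_of_ne_zero hs'⟩, h⟩
  obtain ⟨inst⟩ := h1
  refine ⟨OreLocalization E⁰ E, inferInstance, OreLocalization.numeratorRingHom, ?_, ?_⟩
  · exact OreLocalization.numeratorHom_inj (S := E⁰) (fun x hx => hx.1)
  · intro d
    induction d using OreLocalization.ind with
    | _ r s =>
      refine ⟨s, r, nonZeroDivisors.ne_zero s.2, ?_⟩
      change OreLocalization.numeratorHom (s : E) * _ = OreLocalization.numeratorHom r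
      rw [OreLocalization.numeratorHom_apply, OreLocalization.numeratorHom_apply,
        OreLocalization.mul_cancel]

end H58Hopf
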