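import Pool.Agent.H58.Hopf.Ore

/-!
The Ore condition for subrings which are left noetherian.
-/

namespace H58Hopf

section

variable {R : Type*} [Ring R]

/-- the elements `c (a b)^n` -/
def powSeq (a b c : R) : ℕ → R
  | 0 => c
  | n + 1 => powSeq a b c n * a * b

theorem oreOn_of_noetherian {a : R} (ha : MaxAnn a) (B : Subring R) (hB : IsNoetherianRing B)
    (haB : a ∈ B) {t : R} (htB : t ∈ B) (ht : a * t * a ≠ 0) : OreOn a (B : Set R) := by
  classical
  intro b hb c hc hb0 hc0
  by_contra hcon
  push Not at hcon
  have hcon' : ∀ e ∈ B, ∀ e' ∈ B, a * (e * a * b) * a = a * (e' * a * c) * a →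
      a * (e * a * b) * a = 0 := hcon
  have hX : ∀ n, powSeq a b c n ∈ B := by
    intro n
    induction n with
    | zero => exact hc
    | succ n ih => exact B.mul_mem (B.mul_mem ih haB) hb
  -- descent
  have hQ : ∀ n : ℕ, ∀ s ∈ B, ∀ r : ℕ → R, (∀ i, r i ∈ B) →
      a * (s * a * powSeq a b c n) * a = ∑ i ∈ Finset.range n, a * (r i * a * powSeq a b c i) * a →
      a * s * a = 0 := by
    intro n
    induction n with
    | zero =>
      intro s hs r hr h
      rw [Finset.sum_range_zero] at h
      by_contra hne
      exact ha.dom hne hc0 h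
    | succ n ih =>
      intro s hs r hr h
      rw [Finset.sum_range_succ'] at h
      have h1 : a * ((s * a * powSeq a b c n
          - ∑ i ∈ Finset.range n, r (i + 1) * a * powSeq a b c i) * a * b) * a
          = a * (r 0 * a * c) * a := by
        have e1 : a * (s * a * powSeq a b c (n + 1)) * a
            = a * ((s * a * powSeq a b c n) * a * b) * a := by
          simp only [powSeq, mul_assoc]
        have e2 : ∑ i ∈ Finset.range n, a * (r (i + 1) * a * powSeq a b c (i + 1)) * a
            = a * ((∑ i ∈ Finset.range n, r (i + 1) * a * powSeq a b c i) * a * b) * a := by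
          simp only [Finset.sum_mul, Finset.mul_sum]
          refine Finset.sum_congr rfl fun i _ => ?_
          simp only [powSeq, mul_assoc]
        rw [e1, e2] at h
        simp only [sub_mul, mul_sub]
        rw [h]
        simp only [powSeq]
        abel
      have hmem : s * a * powSeq a b c n
          - ∑ i ∈ Finset.range n, r (i + 1) * a * powSeq a b c i ∈ B :=
        B.sub_mem (B.mul_mem (B.mul_mem hs haB) (hX n))
          (B.sum_mem fun i _ => B.mul_mem (B.mul_mem (hr _) haB) (hX i))
      have h2 := hcon' _ hmem _ (hr 0) h1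
      have h3 : a * (s * a * powSeq a b c n
          - ∑ i ∈ Finset.range n, r (i + 1) * a * powSeq a b c i) * a = 0 := by
        by_contra hne
        exact ha.dom hne hb0 h2
      apply ih s hs (fun i => r (i + 1)) (fun i => hr _)
      rw [mul_sub, sub_mul, sub_eq_zero] at h3
      rw [h3, Finset.mul_sum, Finset.sum_mul]
  -- the chain of left ideals
  let y : ℕ → B := fun n => ⟨a * powSeq a b c n * a, B.mul_mem (B.mul_mem haB (hX n)) haB⟩
  have hn : ∃ n, y n ∈ Submodule.span B (y '' (Set.Iio n)) := by
    obtain ⟨s', hs', hspan⟩ := (Submodule.fg_span_iff_fg_span_finset_subset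
      (R := B) (Set.range y)).mp (IsNoetherian.noetherian _)
    have hex : ∀ z ∈ s', ∃ n, y n = z := fun z hz => hs' hz
    choose! f hf using hex
    let N := (s'.image f).sup id + 1
    refine ⟨N, ?_⟩
    have h1 : y N ∈ Submodule.span B (Set.range y) := Submodule.subset_span ⟨N, rfl⟩
    rw [hspan] at h1
    refine Submodule.span_mono ?_ h1
    intro z hz
    refine ⟨f z, ?_, hf z hz⟩
    have : f z ≤ (s'.image f).sup id := Finset.le_sup (f := id) (Finset.mem_image_of_mem f hz)
    exact Nat.lt_succ_of_le this
  obtain ⟨n, hn⟩ := hn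
  have h1 : ∃ r : ℕ → R, (∀ i, r i ∈ B) ∧
      a * powSeq a b c n * a = ∑ i ∈ Finset.range n, r i * (a * powSeq a b c i * a) := by
    have hset : y '' (Set.Iio n) = Set.range (fun i : Fin n => y i) := by
      ext z
      constructor
      · rintro ⟨i, hi, rfl⟩
        exact ⟨⟨i, hi⟩, rfl⟩
      · rintro ⟨i, rfl⟩
        exact ⟨i, i.2, rfl⟩
    rw [hset] at hn
    obtain ⟨r, hr⟩ := (Submodule.mem_span_range_iff_exists_fun B).mp hn
    refine ⟨fun i => if h : i < n then (r ⟨i, h⟩ : R) else 0, ?_, ?_⟩
    · intro i
      dsimp only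
      split_ifs
      · exact (r _).2
      · exact B.zero_mem
    · have h2 := congrArg (Subtype.val) hr
      simp only [smul_eq_mul, AddSubmonoidClass.coe_finsetSum, Subring.coe_mul] at h2
      have h3 : (y n : R) = a * powSeq a b c n * a := rfl
      rw [Finset.sum_range, ← h3, ← h2]
      refine Finset.sum_congr rfl fun i _ => ?_
      simp [i.2, y]
  obtain ⟨r, hr, hsum⟩ := h1
  apply ht
  apply hQ n t htB (fun i => t * r i) (fun i => B.mul_mem htB (hr i))
  have h2 : a * (t * a * powSeq a b c n) * a = a * t * (a * powSeq a b c n * a) := by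
    simp only [mul_assoc]
  rw [h2, hsum, Finset.mul_sum]
  refine Finset.sum_congr rfl fun i _ => ?_
  simp only [mul_assoc]

end

end H58Hopf
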