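import Pool.Agent.H58.Hopf.Main
import Pool.Agent.H58.Hopf.OreNoeth

/-!
The general principle: in a noetherian Hopf algebra `H` there are a prime ideal `P`, an element
`a` of `H ⧸ P` and a finite set `F0` such that every sub-bialgebra `B` containing `F0` whose image
in `H ⧸ P` satisfies the Ore condition at `a` generates `H` together with `S(B)`.
-/

open TensorProduct Coalgebra HopfAlgebra

namespace H58Hopf

universe u v

section

variable {k : Type u} [Field k] {H : Type v} [Ring H] [HopfAlgebra k H]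

theorem nontrivial_of_hopf (k : Type u) [Field k] (H : Type v) [Ring H] [HopfAlgebra k H] :
    Nontrivial H := by
  refine ⟨1, 0, fun h => ?_⟩
  have h1 := Bialgebra.counit_one (R := k) (A := H)
  rw [h, map_zero] at h1
  exact zero_ne_one h1

/-- `Δ(B) ⊆ B ⊗ B` -/
def IsSubBialg (B : Subalgebra k H) : Prop :=
  ∀ b ∈ B, ∃ t : B ⊗[k] B, TensorProduct.map B.val.toLinearMap B.val.toLinearMap t
      = (comul b : H ⊗[k] H)

theorem main_principle (hl : IsNoetherianRing H) (hr : IsNoetherianRing Hᵐᵒᵖ) :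
    ∃ (P : Ideal H) (_ : P.IsTwoSided) (a t0 : H ⧸ P) (F0 : Finset H),
      MaxAnn' a ∧ a * t0 * a ≠ 0 ∧ OreOn a (Set.univ : Set (H ⧸ P)) ∧
      ((∃ x ∈ F0, Ideal.Quotient.mkₐ k P x = a) ∧ (∃ x ∈ F0, Ideal.Quotient.mkₐ k P x = t0)) ∧
      (∀ B : Subalgebra k H, (∀ x ∈ F0, x ∈ B) → IsSubBialg B →
        OreOn a (B.map (Ideal.Quotient.mkₐ k P) : Set (H ⧸ P)) →
        Algebra.adjoin k ((B : Set H) ∪ antipode k '' (B : Set H)) = ⊤) := by
  classical
  have hnt : Nontrivial H := nontrivial_of_hopf k H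
  have hS : Function.Injective (antipode k : H →ₗ[k] H) := antipode_injective
  obtain ⟨P, hPt, I, hI0, hP, hPprime⟩ := exists_prime_ann (R := H)
  obtain ⟨W, hW⟩ := (IsNoetherian.noetherian I : I.FG)
  let f : H →ₐ[k] H ⧸ P := Ideal.Quotient.mkₐ k P
  have hfs : Function.Surjective f := Ideal.Quotient.mkₐ_surjective k P
  have hf0 : ∀ x, f x = 0 ↔ x ∈ P := fun x => Ideal.Quotient.eq_zero_iff_mem
  have h1P : (1 : H) ∉ P := by
    intro h
    apply hI0
    rw [eq_bot_iff]
    intro i hi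
    have := (hP 1).mp h i hi
    rw [mul_one] at this
    exact this
  have hntR : Nontrivial (H ⧸ P) := ⟨f 1, 0, fun h => h1P ((hf0 1).mp h)⟩
  have hrR : IsNoetherian (H ⧸ P)ᵐᵒᵖ (H ⧸ P) := by
    apply isNoetherian_op_of_ring
    exact isNoetherianRing_of_surjective Hᵐᵒᵖ (H ⧸ P)ᵐᵒᵖ (RingHom.op f.toRingHom) (by
      intro y
      obtain ⟨x, hx⟩ := hfs y.unop
      exact ⟨MulOpposite.op x, by
        change MulOpposite.op (f x) = y
        rw [hx]; rfl⟩)
  have hlR : IsNoetherianRing (H ⧸ P) :=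
    isNoetherianRing_of_surjective H (H ⧸ P) f.toRingHom hfs
  have hprime : IsPrimeRing' (H ⧸ P) := by
    intro x y hxy
    obtain ⟨x, rfl⟩ := hfs x
    obtain ⟨y, rfl⟩ := hfs y
    rw [hf0, hf0]
    apply hPprime
    intro s
    rw [← hf0, map_mul, map_mul]
    exact hxy (f s)
  obtain ⟨a, ha0, ha⟩ := exists_maxAnn hrR
  have hne : ∃ r, a * r * a ≠ 0 := by
    by_contra hcon
    push Not at hcon
    rcases hprime a a hcon with h | h <;> exact ha0 h
  obtain ⟨t0, ht0⟩ := hne
  have hne : ∃ r, a * r * a ≠ 0 := ⟨t0, ht0⟩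
  have hore : OreOn a (Set.univ : Set (H ⧸ P)) := by
    have hT : IsNoetherianRing (⊤ : Subring (H ⧸ P)) :=
      isNoetherianRing_of_ringEquiv (H ⧸ P) Subring.topEquiv.symm
    have := oreOn_of_noetherian ha.maxAnn ⊤ hT trivial (t := t0) trivial ht0
    simpa using this
  obtain ⟨D, _, F, hfrac⟩ := exists_fracData ha hne hore
  obtain ⟨S, hS'⟩ := exists_separating hrR hprime ha0
  obtain ⟨n, r, d, hd, hu⟩ := exists_coords F hfrac hne hore S hS'
  -- generators of the augmentation ideal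
  have hrH : IsNoetherian Hᵐᵒᵖ H := isNoetherian_op_of_ring hr
  let Aug : Submodule Hᵐᵒᵖ H :=
    { carrier := {x | counit (R := k) x = 0}
      zero_mem' := map_zero _
      add_mem' := fun {x y} hx hy => by
        change counit (R := k) (x + y) = 0
        rw [map_add, hx, hy, add_zero]
      smul_mem' := fun c x hx => by
        change counit (R := k) (x * c.unop) = 0
        rw [Bialgebra.counit_mul, hx, zero_mul] }
  obtain ⟨G, hG⟩ := (IsNoetherian.noetherian Aug : Aug.FG)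
  -- the lifts
  let g : H ⧸ P → H := Function.surjInv hfs
  have hg : ∀ x, f (g x) = x := Function.surjInv_eq hfs
  let F0 : Finset H := {g a, g t0} ∪ S.image g ∪ (Finset.univ.image fun j => g (r j)) ∪ W ∪ G
  refine ⟨P, hPt, a, t0, F0, ha, ht0, hore, ?_, ?_⟩
  · exact ⟨⟨g a, by simp [F0], hg a⟩, ⟨g t0, by simp [F0], hg t0⟩⟩
  intro B hF0 hΔ hoB
  have hbalH : BalancedTrivial (B : Set H) := by
    apply balanced_hopf B (comul_mem_left B hΔ)
    intro x hx
    have h1 : x ∈ Aug := hx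
    rw [← hG] at h1
    refine Submodule.span_mono ?_ h1
    intro y hy
    refine ⟨hF0 y ?_, ?_⟩
    · simp only [F0, Finset.mem_union]; exact Or.inr hy
    · have : y ∈ Aug := by rw [← hG]; exact Submodule.subset_span hy
      exact this
  let BR : Subring (H ⧸ P) := (B.map f).toSubring
  have hBR : ∀ x, x ∈ BR ↔ ∃ b ∈ B, f b = x := fun x => Iff.rfl
  have hbal : BalancedTrivial (BR : Set (H ⧸ P)) := hbalH.map f.toRingHom hfs
  have haB : a ∈ BR := (hBR a).mpr ⟨g a, hF0 _ (by simp [F0]), hg a⟩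
  have htB : t0 ∈ BR := (hBR t0).mpr ⟨g t0, hF0 _ (by simp [F0]), hg t0⟩
  have hSB : ∀ s ∈ S, s ∈ BR := fun s hs => (hBR s).mpr ⟨g s, hF0 _ (by
    simp only [F0, Finset.mem_union]
    exact Or.inl (Or.inl (Or.inl (Or.inr (Finset.mem_image_of_mem _ hs))))), hg s⟩
  have hrB : ∀ j, r j ∈ BR := fun j => (hBR _).mpr ⟨g (r j), hF0 _ (by
    simp only [F0, Finset.mem_union]
    exact Or.inl (Or.inl (Or.inr (Finset.mem_image_of_mem _ (Finset.mem_univ _))))), hg _⟩
  have hWB : ∀ w ∈ W, w ∈ B := fun w hw => hF0 _ (by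
    simp only [F0, Finset.mem_union]
    exact Or.inl (Or.inr hw))
  have hneB : ∃ b ∈ BR, F.φ b ≠ 0 := ⟨t0, htB, by rw [Ne, F.zero]; exact ht0⟩
  have hden : ∀ Z : Finset H, ∃ x ∈ B, x ≠ 0 ∧ ∀ z ∈ Z, x * z ∈ B := by
    intro Z
    obtain ⟨y, hy, hy0, hyZ⟩ := prime_denominators F S hS' hd hu BR haB hneB hoB hSB hrB hbal
      (Z.image f)
    obtain ⟨y', hy'B, rfl⟩ := (hBR y).mp hy
    have hy'P : y' ∉ P := fun h => hy0 ((hf0 y').mpr h)
    have hw : ∃ w ∈ W, w * y' ≠ 0 := by
      by_contra hcon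
      push Not at hcon
      apply hy'P
      rw [hP]
      intro i hi
      rw [← hW] at hi
      refine Submodule.span_induction (p := fun z _ => z * y' = 0) ?_ ?_ ?_ ?_ hi
      · intro z hz; exact hcon z hz
      · rw [zero_mul]
      · intro p q _ _ hp hq
        rw [add_mul, hp, hq, add_zero]
      · intro c p _ hp
        rw [smul_eq_mul, mul_assoc, hp, mul_zero]
    obtain ⟨w, hwW, hwy⟩ := hw
    refine ⟨w * y', B.mul_mem (hWB w hwW) hy'B, hwy, fun z hz => ?_⟩
    obtain ⟨b, hb, hbz⟩ := (hBR _).mp (hyZ (f z) (Finset.mem_image_of_mem _ hz))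
    have h1 : y' * z - b ∈ P := by
      rw [← hf0, map_sub, map_mul, hbz, sub_self]
    have h2 : w * (y' * z - b) = 0 := by
      apply (hP _).mp h1
      rw [← hW]; exact Submodule.subset_span hwW
    rw [mul_sub, sub_eq_zero, ← mul_assoc] at h2
    rw [h2]
    exact B.mul_mem (hWB w hwW) hb
  rw [eq_top_iff]
  intro h _
  obtain ⟨q, E, hE⟩ := exists_codata (k := k) ({h} : Finset H)
  obtain ⟨x, hxB, hx0, hxn⟩ := hden (Finset.univ.image E.n)
  have h1 := n_mem_adjoin hS B hΔ E x hx0 hxB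
    (fun i => hxn _ (Finset.mem_image_of_mem _ (Finset.mem_univ _)))
  have h3 : Submodule.span k (Set.range E.n) ≤
      (Algebra.adjoin k ((B : Set H) ∪ antipode k '' (B : Set H))).toSubmodule := by
    refine Submodule.span_le.mpr ?_
    rintro _ ⟨i, rfl⟩
    exact h1 i
  exact h3 (hE h (by simp))

/-- Generators of `B` and their antipodes generate the algebra generated by `B` and `S(B)`. -/
theorem adjoin_union_antipode (X : Set H) (B : Subalgebra k H) (hB : B = Algebra.adjoin k X) :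
    Algebra.adjoin k ((B : Set H) ∪ antipode k '' (B : Set H))
      ≤ Algebra.adjoin k (X ∪ antipode k '' X) := by
  have hBX : B ≤ Algebra.adjoin k (X ∪ antipode k '' X) := by
    rw [hB]; exact Algebra.adjoin_mono Set.subset_union_left
  have hSBX : ∀ b ∈ B, antipode k b ∈ Algebra.adjoin k (X ∪ antipode k '' X) := by
    intro b hb
    rw [hB] at hb
    induction hb using Algebra.adjoin_induction with
    | mem x hx => exact Algebra.subset_adjoin (Or.inr ⟨x, hx, rfl⟩)
    | algebraMap r =>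
      rw [Algebra.algebraMap_eq_smul_one, map_smul, antipode_one]
      exact Subalgebra.smul_mem _ (Subalgebra.one_mem _) _
    | add x y _ _ hx hy => rw [map_add]; exact Subalgebra.add_mem _ hx hy
    | mul x y _ _ hx hy =>
      rw [HopfAlgebra.antipode_mul_antidistrib]; exact Subalgebra.mul_mem _ hy hx
  refine Algebra.adjoin_le ?_
  rintro y (hy | ⟨b, hb, rfl⟩)
  · exact hBX hy
  · exact hSBX b hb

/-- Sub-bialgebras that are left noetherian. -/
theorem generated_of_noetherian_sub (hl : IsNoetherianRing H) (hr : IsNoetherianRing Hᵐᵒᵖ) :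
    ∃ F0 : Finset H, ∀ B : Subalgebra k H, (∀ x ∈ F0, x ∈ B) → IsSubBialg B →
      IsNoetherianRing B → Algebra.adjoin k ((B : Set H) ∪ antipode k '' (B : Set H)) = ⊤ := by
  obtain ⟨P, hPt, a, t0, F0, ha, ht0, hore, hat, hmain⟩ := main_principle (k := k) hl hr
  refine ⟨F0, fun B hF0 hΔ hBn => ?_⟩
  apply hmain B hF0 hΔ
  obtain ⟨⟨a', ha', haa⟩, ⟨t', ht', htt⟩⟩ := hat
  have haB : a ∈ B.map (Ideal.Quotient.mkₐ k P) := ⟨a', hF0 _ ha', haa⟩
  have htB : t0 ∈ B.map (Ideal.Quotient.mkₐ k P) := ⟨t', hF0 _ ht', htt⟩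
  let f : H →ₐ[k] H ⧸ P := Ideal.Quotient.mkₐ k P
  have hn : IsNoetherianRing (B.map f) := by
    let g : B →ₐ[k] B.map f := (f.comp B.val).codRestrict (B.map f) (fun b => ⟨b, b.2, rfl⟩)
    refine isNoetherianRing_of_surjective B (B.map f) g.toRingHom ?_
    rintro ⟨_, b, hb, rfl⟩
    exact ⟨⟨b, hb⟩, rfl⟩
  exact oreOn_of_noetherian ha.maxAnn (B.map f).toSubring hn haB htB ht0

end

end H58Hopf
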