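import Pool.Agent.H58.Hopf.Reduction
import Pool.Agent.H58.Hopf.Denominator

/-!
Noetherian Hopf algebras without free subalgebras of rank two are affine.
-/

open TensorProduct Coalgebra HopfAlgebra

namespace H58Hopf

universe u v

section

variable {k : Type u} [Field k] {H : Type v} [Ring H] [HopfAlgebra k H]

theorem CoData.mem_of_entries {m : Type*} [Fintype m] [DecidableEq m] (D : CoData k H m)
    (B : Subalgebra k H) (hB : ∀ i j, D.d i j ∈ B) {x : H}
    (hx : x ∈ Submodule.span k (Set.range D.n)) : x ∈ B := by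
  have h1 : Submodule.span k (Set.range D.n) ≤ B.toSubmodule := by
    refine Submodule.span_le.mpr ?_
    rintro _ ⟨i, rfl⟩
    rw [D.n_eq i]
    exact Submodule.sum_mem _ fun j _ => Submodule.smul_mem _ _ (hB i j)
  exact h1 hx

/-- The subalgebra generated by a comatrix is a sub-bialgebra. -/
theorem comul_mem_adjoin {m : Type*} [Fintype m] [DecidableEq m] (D : CoData k H m)
    (B : Subalgebra k H) (hB : B = Algebra.adjoin k (Set.range fun p : m × m => D.d p.1 p.2)) :
    ∀ b ∈ B, ∃ t : B ⊗[k] B, TensorProduct.map B.val.toLinearMap B.val.toLinearMap t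
      = (comul b : H ⊗[k] H) := by
  have hd : ∀ i j, D.d i j ∈ B := fun i j => by
    rw [hB]; exact Algebra.subset_adjoin ⟨(i, j), rfl⟩
  have h1 : B ≤ (Algebra.TensorProduct.map B.val B.val).range.comap
      (Bialgebra.comulAlgHom k H) := by
    conv_lhs => rw [hB]
    refine Algebra.adjoin_le ?_
    rintro _ ⟨⟨i, j⟩, rfl⟩
    change (comul (D.d i j) : H ⊗[k] H) ∈ (Algebra.TensorProduct.map B.val B.val).range
    rw [D.comul_d]
    refine Subalgebra.sum_mem _ fun l _ => ?_
    exact ⟨(⟨_, hd i l⟩ : B) ⊗ₜ[k] (⟨_, hd l j⟩ : B), rfl⟩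
  intro b hb
  obtain ⟨t, ht⟩ := h1 hb
  exact ⟨t, ht⟩

theorem comul_mem_left (B : Subalgebra k H)
    (hΔ : ∀ b ∈ B, ∃ t : B ⊗[k] B, TensorProduct.map B.val.toLinearMap B.val.toLinearMap t
      = (comul b : H ⊗[k] H)) :
    ∀ b ∈ B, (comul b : H ⊗[k] H) ∈ LinearMap.range (B.val.toLinearMap.lTensor H) := by
  intro b hb
  obtain ⟨t, ht⟩ := hΔ b hb
  refine ⟨TensorProduct.map B.val.toLinearMap LinearMap.id t, ?_⟩
  rw [← ht]
  rw [← LinearMap.comp_apply]
  congr 1
  rw [LinearMap.lTensor, ← TensorProduct.map_comp]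
  rfl

theorem BalancedTrivial.map {R : Type v} [Ring R] {B : Set H} (h : BalancedTrivial B)
    (f : H →+* R) (hf : Function.Surjective f) : BalancedTrivial (f '' B) := by
  intro W _ Φ hΦ
  let Φ' : H →+ H →+ W := AddMonoidHom.mk' (fun x => (Φ (f x)).comp f.toAddMonoidHom) (by
    intro x y
    ext z
    change Φ (f (x + y)) (f z) = Φ (f x) (f z) + Φ (f y) (f z)
    rw [map_add, map_add]; rfl)
  have h1 := h W Φ' (by
    intro x b hb r
    change Φ (f (x * b)) (f r) = Φ (f x) (f (b * r))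
    rw [map_mul f, map_mul f]
    exact hΦ _ _ ⟨b, hb, rfl⟩ _)
  intro x r
  obtain ⟨x, rfl⟩ := hf x
  obtain ⟨r, rfl⟩ := hf r
  have h2 := h1 x r
  change Φ (f x) (f r) = Φ (f 1) (f (x * r)) at h2
  rw [h2, map_one f, map_mul f]

/-- Common left denominators in a noetherian Hopf algebra without free subalgebras. -/
theorem exists_subbialgebra (hl : IsNoetherianRing H) (hr : IsNoetherianRing Hᵐᵒᵖ)
    (hfree : ¬ ∃ x y : H, Function.Injective (FreeAlgebra.lift k ![x, y])) :
    ∃ (m : ℕ) (E : CoData k H (Fin m)) (B : Subalgebra k H),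
      B = Algebra.adjoin k (Set.range fun p : Fin m × Fin m => E.d p.1 p.2) ∧
      ∀ Z : Finset H, ∃ x ∈ B, x ≠ 0 ∧ ∀ z ∈ Z, x * z ∈ B := by
  classical
  have hnt : Nontrivial H := by
    refine ⟨1, 0, fun h => ?_⟩
    have h1 := Bialgebra.counit_one (R := k) (A := H)
    rw [h, map_zero] at h1
    exact zero_ne_one h1
  obtain ⟨P, hPt, I, hI0, hP, hPprime⟩ := exists_prime_ann (R := H)
  obtain ⟨W, hW⟩ := (IsNoetherian.noetherian I : I.FG)
  let f : H →ₐ[k] H ⧸ P := Ideal.Quotient.mkₐ k P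
  have hfs : Function.Surjective f := Ideal.Quotient.mkₐ_surjective k P
  have hf0 : ∀ x, f x = 0 ↔ x ∈ P := fun x => Ideal.Quotient.eq_zero_iff_mem
  have h1P : (1 : H) ∉ P := by
    intro h
    apply hI0
    rw [eq_bot_iff]
    intro i hi
    have := (hP 1).mp h i hi
    rw [mul_one] at this
    exact this
  have hntR : Nontrivial (H ⧸ P) := ⟨f 1, 0, fun h => h1P ((hf0 1).mp h)⟩
  have hrR : IsNoetherian (H ⧸ P)ᵐᵒᵖ (H ⧸ P) := by
    apply isNoetherian_op_of_ring
    exact isNoetherianRing_of_surjective Hᵐᵒᵖ (H ⧸ P)ᵐᵒᵖ (RingHom.op f.toRingHom) (by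
      intro y
      obtain ⟨x, hx⟩ := hfs y.unop
      exact ⟨MulOpposite.op x, by
        change MulOpposite.op (f x) = y
        rw [hx]; rfl⟩)
  have hprime : IsPrimeRing' (H ⧸ P) := by
    intro x y hxy
    obtain ⟨x, rfl⟩ := hfs x
    obtain ⟨y, rfl⟩ := hfs y
    rw [hf0, hf0]
    apply hPprime
    intro s
    rw [← hf0, map_mul, map_mul]
    exact hxy (f s)
  have hfreeR : ¬ ∃ x y : H ⧸ P, Function.Injective (FreeAlgebra.lift k ![x, y]) := by
    rintro ⟨x, y, hxy⟩
    obtain ⟨x, rfl⟩ := hfs x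
    obtain ⟨y, rfl⟩ := hfs y
    apply hfree
    refine ⟨x, y, ?_⟩
    have h1 : FreeAlgebra.lift k ![f x, f y] = f.comp (FreeAlgebra.lift k ![x, y]) := by
      apply FreeAlgebra.hom_ext
      funext i
      fin_cases i <;> simp
    rw [h1] at hxy
    exact Function.Injective.of_comp hxy
  obtain ⟨a, ha0, ha⟩ := exists_maxAnn hrR
  have hne : ∃ r, a * r * a ≠ 0 := by
    by_contra hcon
    push Not at hcon
    rcases hprime a a hcon with h | h <;> exact ha0 h
  have hore : OreOn a (Set.univ : Set (H ⧸ P)) := by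
    have := oreOn_of_noFree ha.maxAnn hfreeR ⊤ trivial
    simpa using this
  obtain ⟨D, _, F, hfrac⟩ := exists_fracData ha hne hore
  obtain ⟨S, hS⟩ := exists_separating hrR hprime ha0
  obtain ⟨n, r, d, hd, hu⟩ := exists_coords F hfrac hne hore S hS
  obtain ⟨t0, ht0⟩ := hne
  -- generators of the augmentation ideal
  have hrH : IsNoetherian Hᵐᵒᵖ H := isNoetherian_op_of_ring hr
  let Aug : Submodule Hᵐᵒᵖ H :=
    { carrier := {x | counit (R := k) x = 0}
      zero_mem' := map_zero _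
      add_mem' := fun {x y} hx hy => by
        change counit (R := k) (x + y) = 0
        rw [map_add, hx, hy, add_zero]
      smul_mem' := fun c x hx => by
        change counit (R := k) (x * c.unop) = 0
        rw [Bialgebra.counit_mul, hx, zero_mul] }
  obtain ⟨G, hG⟩ := (IsNoetherian.noetherian Aug : Aug.FG)
  -- the lifts
  let g : H ⧸ P → H := Function.surjInv hfs
  have hg : ∀ x, f (g x) = x := Function.surjInv_eq hfs
  let F0 : Finset H := {g a, g t0} ∪ S.image g ∪ (Finset.univ.image fun j => g (r j)) ∪ W ∪ G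
  obtain ⟨m, E, hE⟩ := exists_codata (k := k) F0
  let B : Subalgebra k H := Algebra.adjoin k (Set.range fun p : Fin m × Fin m => E.d p.1 p.2)
  have hBE : ∀ i j, E.d i j ∈ B := fun i j => Algebra.subset_adjoin ⟨(i, j), rfl⟩
  have hF0 : ∀ x ∈ F0, x ∈ B := fun x hx => E.mem_of_entries B hBE (hE x hx)
  have hΔ := comul_mem_adjoin E B rfl
  have hbalH : BalancedTrivial (B : Set H) := by
    apply balanced_hopf B (comul_mem_left B hΔ)
    intro x hx
    have h1 : x ∈ Aug := hx
    rw [← hG] at h1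
    refine Submodule.span_mono ?_ h1
    intro y hy
    refine ⟨hF0 y ?_, ?_⟩
    · simp only [F0, Finset.mem_union]; exact Or.inr hy
    · have : y ∈ Aug := by rw [← hG]; exact Submodule.subset_span hy
      exact this
  let BR : Subring (H ⧸ P) := (B.map f).toSubring
  have hBR : ∀ x, x ∈ BR ↔ ∃ b ∈ B, f b = x := fun x => Iff.rfl
  have hbal : BalancedTrivial (BR : Set (H ⧸ P)) := hbalH.map f.toRingHom hfs
  have haB : a ∈ BR := (hBR a).mpr ⟨g a, hF0 _ (by simp [F0]), hg a⟩
  have htB : t0 ∈ BR := (hBR t0).mpr ⟨g t0, hF0 _ (by simp [F0]), hg t0⟩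
  have hSB : ∀ s ∈ S, s ∈ BR := fun s hs => (hBR s).mpr ⟨g s, hF0 _ (by
    simp only [F0, Finset.mem_union]
    exact Or.inl (Or.inl (Or.inl (Or.inr (Finset.mem_image_of_mem _ hs))))), hg s⟩
  have hrB : ∀ j, r j ∈ BR := fun j => (hBR _).mpr ⟨g (r j), hF0 _ (by
    simp only [F0, Finset.mem_union]
    exact Or.inl (Or.inl (Or.inr (Finset.mem_image_of_mem _ (Finset.mem_univ _))))), hg _⟩
  have hWB : ∀ w ∈ W, w ∈ B := fun w hw => hF0 _ (by
    simp only [F0, Finset.mem_union]
    exact Or.inl (Or.inr hw))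
  have hneB : ∃ b ∈ BR, F.φ b ≠ 0 := ⟨t0, htB, by rw [Ne, F.zero]; exact ht0⟩
  have hoB : OreOn a (BR : Set (H ⧸ P)) := oreOn_of_noFree ha.maxAnn hfreeR (B.map f) haB
  refine ⟨m, E, B, rfl, fun Z => ?_⟩
  obtain ⟨y, hy, hy0, hyZ⟩ := prime_denominators F S hS hd hu BR haB hneB hoB hSB hrB hbal
    (Z.image f)
  obtain ⟨y', hy'B, rfl⟩ := (hBR y).mp hy
  have hy'P : y' ∉ P := fun h => hy0 ((hf0 y').mpr h)
  have hw : ∃ w ∈ W, w * y' ≠ 0 := by
    by_contra hcon
    push Not at hcon
    apply hy'P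
    rw [hP]
    intro i hi
    rw [← hW] at hi
    refine Submodule.span_induction (p := fun z _ => z * y' = 0) ?_ ?_ ?_ ?_ hi
    · intro z hz; exact hcon z hz
    · rw [zero_mul]
    · intro p q _ _ hp hq
      rw [add_mul, hp, hq, add_zero]
    · intro c p _ hp
      rw [smul_eq_mul, mul_assoc, hp, mul_zero]
  obtain ⟨w, hwW, hwy⟩ := hw
  refine ⟨w * y', B.mul_mem (hWB w hwW) hy'B, hwy, fun z hz => ?_⟩
  obtain ⟨b, hb, hbz⟩ := (hBR _).mp (hyZ (f z) (Finset.mem_image_of_mem _ hz))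
  have h1 : y' * z - b ∈ P := by
    rw [← hf0, map_sub, map_mul, hbz, sub_self]
  have h2 : w * (y' * z - b) = 0 := by
    apply (hP _).mp h1
    rw [← hW]; exact Submodule.subset_span hwW
  rw [mul_sub, sub_eq_zero, ← mul_assoc] at h2
  rw [h2]
  exact B.mul_mem (hWB w hwW) hb

theorem affine_of_noFree (hl : IsNoetherianRing H) (hr : IsNoetherianRing Hᵐᵒᵖ)
    (hfree : ¬ ∃ x y : H, Function.Injective (FreeAlgebra.lift k ![x, y])) :
    Algebra.FiniteType k H := by
  classical
  obtain ⟨m, E, B, hB, hden⟩ := exists_subbialgebra hl hr hfree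
  have hS : Function.Injective (antipode k : H →ₗ[k] H) := antipode_injective
  have hΔ := comul_mem_adjoin E B hB
  let X : Set H := Set.range (fun p : Fin m × Fin m => E.d p.1 p.2) ∪
    Set.range (fun p : Fin m × Fin m => antipode k (E.d p.1 p.2))
  have hX : X.Finite := (Set.finite_range _).union (Set.finite_range _)
  have hBX : B ≤ Algebra.adjoin k X := by
    rw [hB]; exact Algebra.adjoin_mono Set.subset_union_left
  have hSBX : ∀ b ∈ B, antipode k b ∈ Algebra.adjoin k X := by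
    intro b hb
    rw [hB] at hb
    induction hb using Algebra.adjoin_induction with
    | mem x hx =>
      obtain ⟨p, rfl⟩ := hx
      exact Algebra.subset_adjoin (Or.inr ⟨p, rfl⟩)
    | algebraMap r =>
      rw [Algebra.algebraMap_eq_smul_one, map_smul, antipode_one]
      exact Subalgebra.smul_mem _ (Subalgebra.one_mem _) _
    | add x y _ _ hx hy => rw [map_add]; exact Subalgebra.add_mem _ hx hy
    | mul x y _ _ hx hy =>
      rw [HopfAlgebra.antipode_mul_antidistrib]; exact Subalgebra.mul_mem _ hy hx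
  have htop : Algebra.adjoin k X = ⊤ := by
    rw [eq_top_iff]
    intro h _
    obtain ⟨q, D, hD⟩ := exists_codata (k := k) ({h} : Finset H)
    obtain ⟨x, hxB, hx0, hxn⟩ := hden (Finset.univ.image D.n)
    have h1 := n_mem_adjoin hS B hΔ D x hx0 hxB
      (fun i => hxn _ (Finset.mem_image_of_mem _ (Finset.mem_univ _)))
    have h2 : Algebra.adjoin k ((B : Set H) ∪ antipode k '' (B : Set H)) ≤
        Algebra.adjoin k X := by
      refine Algebra.adjoin_le ?_
      rintro y (hy | ⟨b, hb, rfl⟩)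
      · exact hBX hy
      · exact hSBX b hb
    have h3 : Submodule.span k (Set.range D.n) ≤ (Algebra.adjoin k X).toSubmodule := by
      refine Submodule.span_le.mpr ?_
      rintro _ ⟨i, rfl⟩
      exact h2 (h1 i)
    exact h3 (hD h (by simp))
  exact ⟨⟨hX.toFinset, by rw [hX.coe_toFinset]; exact htop⟩⟩

end

end H58Hopf
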