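import Mathlib

/-!
Ore condition for the local domain `(R, r * r' = r a r')` modulo `{r : a r a = 0}`, in an algebra
without free subalgebras of rank two.
-/

namespace H58Hopf

section free

variable {k : Type*} [Field k]

/-- Elements of the free algebra on two generators built from right to left. -/
inductive Good (k : Type*) [Field k] : FreeAlgebra k (Fin 2) → Prop
  | const (c : k) : Good k (algebraMap k _ c)
  | step (c : k) (p q : FreeAlgebra k (Fin 2)) : Good k p → Good k q →
      Good k (algebraMap k _ c + p * FreeAlgebra.ι k 0 + q * FreeAlgebra.ι k 1)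

theorem Good.add {p q : FreeAlgebra k (Fin 2)} (hp : Good k p) (hq : Good k q) :
    Good k (p + q) := by
  induction hp generalizing q with
  | const c =>
    cases hq with
    | const d => rw [← map_add]; exact Good.const _
    | step d p' q' hp' hq' =>
      have : algebraMap k (FreeAlgebra k (Fin 2)) c + (algebraMap k _ d + p' * FreeAlgebra.ι k 0
          + q' * FreeAlgebra.ι k 1) = algebraMap k _ (c + d) + p' * FreeAlgebra.ι k 0
          + q' * FreeAlgebra.ι k 1 := by rw [map_add]; abel
      rw [this]; exact Good.step _ _ _ hp' hq'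
  | step c p1 p2 h1 h2 ih1 ih2 =>
    cases hq with
    | const d =>
      have : (algebraMap k (FreeAlgebra k (Fin 2)) c + p1 * FreeAlgebra.ι k 0
          + p2 * FreeAlgebra.ι k 1) + algebraMap k _ d = algebraMap k _ (c + d)
          + p1 * FreeAlgebra.ι k 0 + p2 * FreeAlgebra.ι k 1 := by rw [map_add]; abel
      rw [this]; exact Good.step _ _ _ h1 h2
    | step d p' q' hp' hq' =>
      have : (algebraMap k (FreeAlgebra k (Fin 2)) c + p1 * FreeAlgebra.ι k 0
          + p2 * FreeAlgebra.ι k 1) + (algebraMap k _ d + p' * FreeAlgebra.ι k 0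
          + q' * FreeAlgebra.ι k 1) = algebraMap k _ (c + d)
          + (p1 + p') * FreeAlgebra.ι k 0 + (p2 + q') * FreeAlgebra.ι k 1 := by
        rw [map_add, add_mul, add_mul]; abel
      rw [this]; exact Good.step _ _ _ (ih1 hp') (ih2 hq')

theorem Good.smul {p : FreeAlgebra k (Fin 2)} (hp : Good k p) (d : k) : Good k (d • p) := by
  induction hp with
  | const c => rw [Algebra.smul_def, ← map_mul]; exact Good.const _
  | step c p1 p2 h1 h2 ih1 ih2 =>
    have : d • (algebraMap k (FreeAlgebra k (Fin 2)) c + p1 * FreeAlgebra.ι k 0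
        + p2 * FreeAlgebra.ι k 1) = algebraMap k _ (d * c)
        + (d • p1) * FreeAlgebra.ι k 0 + (d • p2) * FreeAlgebra.ι k 1 := by
      rw [smul_add, smul_add, smul_mul_assoc, smul_mul_assoc, map_mul, ← Algebra.smul_def]
    rw [this]; exact Good.step _ _ _ ih1 ih2

theorem Good.mul {p q : FreeAlgebra k (Fin 2)} (hp : Good k p) (hq : Good k q) :
    Good k (p * q) := by
  induction hq with
  | const d => rw [← Algebra.commutes, ← Algebra.smul_def]; exact hp.smul d
  | step c p1 p2 h1 h2 ih1 ih2 =>
    have : p * (algebraMap k (FreeAlgebra k (Fin 2)) c + p1 * FreeAlgebra.ι k 0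
        + p2 * FreeAlgebra.ι k 1) = c • p + (algebraMap k (FreeAlgebra k (Fin 2)) 0
        + (p * p1) * FreeAlgebra.ι k 0 + (p * p2) * FreeAlgebra.ι k 1) := by
      rw [map_zero, zero_add, mul_add, mul_add, ← Algebra.commutes, ← Algebra.smul_def,
        mul_assoc, mul_assoc]; abel
    rw [this]
    exact (hp.smul c).add (Good.step _ _ _ ih1 ih2)

theorem good_all (p : FreeAlgebra k (Fin 2)) : Good k p := by
  induction p using FreeAlgebra.induction with
  | grade0 r => exact Good.const r
  | grade1 x =>
    have h0 : Good k (0 : FreeAlgebra k (Fin 2)) := by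
      rw [← map_zero (algebraMap k (FreeAlgebra k (Fin 2)))]; exact Good.const 0
    have h1 : Good k (1 : FreeAlgebra k (Fin 2)) := by
      rw [← map_one (algebraMap k (FreeAlgebra k (Fin 2)))]; exact Good.const 1
    fin_cases x
    · have := Good.step 0 _ _ h1 h0
      simpa using this
    · have := Good.step 0 _ _ h0 h1
      simpa using this
  | mul a b ha hb => exact ha.mul hb
  | add a b ha hb => exact ha.add hb

end free

/-- `a` has a maximal right annihilator (in the form used below). -/
def MaxAnn {R : Type*} [Ring R] (a : R) : Prop :=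
  ∀ s r : R, s * a ≠ 0 → s * a * r = 0 → a * r = 0

theorem MaxAnn.dom {R : Type*} [Ring R] {a : R} (ha : MaxAnn a) {b c : R}
    (hb : a * b * a ≠ 0) (hc : a * c * a ≠ 0) : a * (b * a * c) * a ≠ 0 := by
  intro h
  apply hc
  have := ha (a * b) (c * a) hb (by rw [← h]; simp only [mul_assoc])
  rw [← mul_assoc] at this
  exact this

/-- the Ore condition on `B` -/
def OreOn {R : Type*} [Ring R] (a : R) (B : Set R) : Prop :=
  ∀ b ∈ B, ∀ c ∈ B, a * b * a ≠ 0 → a * c * a ≠ 0 →
    ∃ e ∈ B, ∃ e' ∈ B, a * (e * a * b) * a = a * (e' * a * c) * a ∧ a * (e * a * b) * a ≠ 0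

section ore

variable {k : Type*} [Field k] {R : Type*} [Ring R] [Algebra k R]

theorem oreOn_of_noFree {a : R} (ha : MaxAnn a)
    (hfree : ¬ ∃ x y : R, Function.Injective (FreeAlgebra.lift k ![x, y]))
    (B : Subalgebra k R) (haB : a ∈ B) : OreOn a (B : Set R) := by
  intro b hb c hc hb0 hc0
  by_contra hcon
  push Not at hcon
  have hcon' : ∀ e ∈ B, ∀ e' ∈ B, a * (e * a * b) * a = a * (e' * a * c) * a →
      a * (e * a * b) * a = 0 := hcon
  apply hfree
  refine ⟨a * b, a * c, ?_⟩
  have ha0 : a ≠ 0 := by rintro rfl; simp at hb0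
  set L := FreeAlgebra.lift k ![a * b, a * c] with hL
  have hL0 : L (FreeAlgebra.ι k 0) = a * b := by simp [hL]
  have hL1 : L (FreeAlgebra.ι k 1) = a * c := by simp [hL]
  have hLB : ∀ p, L p ∈ B := by
    intro p
    induction p using FreeAlgebra.induction with
    | grade0 r => rw [AlgHom.commutes]; exact B.algebraMap_mem r
    | grade1 x =>
      fin_cases x
      · change L (FreeAlgebra.ι k 0) ∈ B
        rw [hL0]; exact B.mul_mem haB hb
      · change L (FreeAlgebra.ι k 1) ∈ B
        rw [hL1]; exact B.mul_mem haB hc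
    | mul a b ha hb => rw [map_mul]; exact B.mul_mem ha hb
    | add a b ha hb => rw [map_add]; exact B.add_mem ha hb
  have haR : ∀ p, ∃ r, L p * a = a * r := by
    intro p
    induction good_all p with
    | const c => exact ⟨algebraMap k R c, by rw [AlgHom.commutes, Algebra.commutes]⟩
    | step d p q _ _ ih1 ih2 =>
      obtain ⟨r1, h1⟩ := ih1
      obtain ⟨r2, h2⟩ := ih2
      refine ⟨algebraMap k R d + r1 * b * a + r2 * c * a, ?_⟩
      simp only [map_add, map_mul, hL0, hL1, AlgHom.commutes, add_mul, mul_add]
      rw [← Algebra.commutes d a]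
      have e1 : L p * (a * b) * a = a * (r1 * b * a) := by
        rw [← mul_assoc (L p), h1]; simp only [mul_assoc]
      have e2 : L q * (a * c) * a = a * (r2 * c * a) := by
        rw [← mul_assoc (L q), h2]; simp only [mul_assoc]
      rw [e1, e2]
  -- cancellation
  have hcanc : ∀ v : R, a * v * a ≠ 0 → ∀ p, (a * v) * (a * v) * (L p * a) = 0 →
      L p * a = 0 := by
    intro v hv p hp
    obtain ⟨r, hr⟩ := haR p
    rw [hr] at hp ⊢
    refine ha ((a * v) * (a * v)) r ?_ ?_
    · have := ha.dom hv hv
      intro h; apply this; rw [← h]; simp only [mul_assoc]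
    · rw [← hp]; simp only [mul_assoc]
  have step : ∀ (d : k) (p q : FreeAlgebra k (Fin 2)),
      (d • (1 : R) + L p * (a * b) + L q * (a * c)) * a = 0 → L p * a = 0 ∧ L q * a = 0 := by
    intro d p q h
    constructor
    · apply hcanc c hc0
      have h1 := hcon' (c * (a * c) * L p)
        (B.mul_mem (B.mul_mem hc (B.mul_mem haB hc)) (hLB p))
        (-(d • c + c * (a * c) * L q))
        (B.neg_mem (B.add_mem (B.smul_mem hc d)
          (B.mul_mem (B.mul_mem hc (B.mul_mem haB hc)) (hLB q)))) ?_
      · by_contra hne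
        refine ha.dom (b := c * (a * c) * L p) (c := b) ?_ hb0 h1
        intro h2; apply hne; rw [← h2]; simp only [mul_assoc]
      · have h2 : (a * c) * (a * c) * ((d • (1 : R) + L p * (a * b) + L q * (a * c)) * a) = 0 := by
          rw [h, mul_zero]
        rw [← sub_eq_zero, ← h2]
        simp only [add_mul, mul_add, neg_mul, mul_neg, sub_neg_eq_add, mul_assoc,
          smul_mul_assoc, mul_smul_comm, one_mul]
        abel
    · apply hcanc b hb0
      have heq : a * ((-(d • b + b * (a * b) * L p)) * a * b) * a
          = a * ((b * (a * b) * L q) * a * c) * a := by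
        have h2 : (a * b) * (a * b) * ((d • (1 : R) + L p * (a * b) + L q * (a * c)) * a) = 0 := by
          rw [h, mul_zero]
        rw [← sub_eq_zero, ← neg_eq_zero, ← h2]
        simp only [add_mul, mul_add, neg_mul, mul_neg, mul_assoc,
          smul_mul_assoc, mul_smul_comm, one_mul]
        abel
      have h1 := hcon' (-(d • b + b * (a * b) * L p))
        (B.neg_mem (B.add_mem (B.smul_mem hb d)
          (B.mul_mem (B.mul_mem hb (B.mul_mem haB hb)) (hLB p))))
        (b * (a * b) * L q)
        (B.mul_mem (B.mul_mem hb (B.mul_mem haB hb)) (hLB q)) heq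
      rw [heq] at h1
      by_contra hne
      refine ha.dom (b := b * (a * b) * L q) (c := c) ?_ hc0 h1
      intro h2; apply hne; rw [← h2]; simp only [mul_assoc]
  have main : ∀ p, L p * a = 0 → p = 0 := by
    intro p
    induction good_all p with
    | const d =>
      intro h
      rw [AlgHom.commutes, ← Algebra.smul_def, smul_eq_zero] at h
      rcases h with h | h
      · rw [h, map_zero]
      · exact absurd h ha0
    | step d p q _ _ ih1 ih2 =>
      intro h
      simp only [map_add, map_mul, hL0, hL1, AlgHom.commutes] at h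
      rw [Algebra.algebraMap_eq_smul_one] at h
      obtain ⟨h1, h2⟩ := step d p q h
      have hp := ih1 h1
      have hq := ih2 h2
      subst hp hq
      simp only [map_zero, zero_mul, add_zero, smul_mul_assoc, one_mul, smul_eq_zero] at h ⊢
      rcases h with h | h
      · rw [h, map_zero]
      · exact absurd h ha0
  intro p q hpq
  rw [← sub_eq_zero]
  apply main
  rw [map_sub, hpq, sub_self, zero_mul]

end ore

end H58Hopf
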