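import Pool.Agent.H58.Hopf.Dominion

/-!
Noetherian ring theory: maximal right annihilators, separation, and the reduction to a prime
quotient.
-/

namespace H58Hopf

universe u v

/-- element-wise primeness -/
def IsPrimeRing' (R : Type*) [Ring R] : Prop := ∀ x y : R, (∀ s, x * s * y = 0) → x = 0 ∨ y = 0

section

variable {R : Type*} [Ring R]

theorem isNoetherian_op_of_ring (h : IsNoetherianRing Rᵐᵒᵖ) : IsNoetherian Rᵐᵒᵖ R := by
  let e : Rᵐᵒᵖ ≃ₗ[Rᵐᵒᵖ] R :=
    { toFun := fun x => x.unop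
      invFun := fun x => MulOpposite.op x
      left_inv := fun x => rfl
      right_inv := fun x => rfl
      map_add' := fun x y => rfl
      map_smul' := fun c x => rfl }
  exact isNoetherian_of_linearEquiv e

/-- right annihilator -/
def rann (x : R) : Submodule Rᵐᵒᵖ R where
  carrier := {r | x * r = 0}
  zero_mem' := mul_zero x
  add_mem' := fun {r s} hr hs => by
    change x * (r + s) = 0
    rw [mul_add, hr, hs, add_zero]
  smul_mem' := fun c r hr => by
    change x * (r * c.unop) = 0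
    rw [← mul_assoc, hr, zero_mul]

theorem exists_maxAnn [Nontrivial R] (hr : IsNoetherian Rᵐᵒᵖ R) :
    ∃ a : R, a ≠ 0 ∧ MaxAnn' a := by
  obtain ⟨M, ⟨a, ha, haM⟩, hmax⟩ := set_has_maximal_iff_noetherian.mpr hr
    {M | ∃ a : R, a ≠ 0 ∧ rann a = M} ⟨_, 1, one_ne_zero, rfl⟩
  refine ⟨a, ha, ?_⟩
  intro x hx hax r hxr
  have h1 : rann a ≤ rann x := fun r hr => hax r hr
  have h2 : rann a = rann x := by
    by_contra hne
    exact hmax (rann x) ⟨x, hx, rfl⟩ (haM ▸ lt_of_le_of_ne h1 hne)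
  have h3 : r ∈ rann x := hxr
  rw [← h2] at h3
  exact h3

theorem exists_separating (hr : IsNoetherian Rᵐᵒᵖ R) (hprime : IsPrimeRing' R) {a : R}
    (ha : a ≠ 0) : ∃ S : Finset R, ∀ w, (∀ s ∈ S, a * w * s * a = 0) → a * w = 0 := by
  classical
  obtain ⟨s', hs', hspan⟩ := (Submodule.fg_span_iff_fg_span_finset_subset
    (R := Rᵐᵒᵖ) (Set.range fun s : R => s * a)).mp (IsNoetherian.noetherian _)
  have hex : ∀ y ∈ s', ∃ s : R, s * a = y := fun y hy => hs' hy
  choose! f hf using hex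
  refine ⟨s'.image f, fun w hw => ?_⟩
  have h1 : Submodule.span Rᵐᵒᵖ (Set.range fun s : R => s * a) ≤ rann (a * w) := by
    rw [hspan]
    refine Submodule.span_le.mpr ?_
    intro y hy
    change a * w * y = 0
    rw [← hf y hy, ← mul_assoc]
    exact hw _ (Finset.mem_image_of_mem _ hy)
  have h2 : ∀ s, a * w * s * a = 0 := by
    intro s
    have : s * a ∈ rann (a * w) := h1 (Submodule.subset_span ⟨s, rfl⟩)
    rw [mul_assoc]; exact this
  exact (hprime _ _ h2).resolve_right ha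

/-- Reduction to a prime ideal which is the right annihilator of a nonzero ideal. -/
theorem exists_prime_ann [Nontrivial R] [IsNoetherianRing R] :
    ∃ (P : Ideal R) (_ : P.IsTwoSided) (I : Ideal R), I ≠ ⊥ ∧
      (∀ h, h ∈ P ↔ ∀ i ∈ I, i * h = 0) ∧
      (∀ x y : R, (∀ s, x * s * y ∈ P) → x ∈ P ∨ y ∈ P) := by
  classical
  let Q : Set (Ideal R) := {P | ∃ I : Ideal R, I.IsTwoSided ∧ I ≠ ⊥ ∧
    (∀ h, h ∈ P ↔ ∀ i ∈ I, i * h = 0)}
  have mk : ∀ I : Ideal R, I.IsTwoSided → ∃ P : Ideal R, ∀ h, h ∈ P ↔ ∀ i ∈ I, i * h = 0 := by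
    intro I hI
    refine ⟨{ carrier := {h | ∀ i ∈ I, i * h = 0}
              zero_mem' := fun i _ => mul_zero i
              add_mem' := fun {x y} hx hy i hi => by rw [mul_add, hx i hi, hy i hi, add_zero]
              smul_mem' := fun c x hx i hi => by
                change i * (c * x) = 0
                rw [← mul_assoc]
                exact hx _ (hI.mul_mem_of_left c hi) }, fun h => Iff.rfl⟩
  have hQ : Q.Nonempty := by
    obtain ⟨P, hP⟩ := mk ⊤ inferInstance
    exact ⟨P, ⊤, inferInstance, top_ne_bot, hP⟩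
  obtain ⟨P, ⟨I, hI, hI0, hP⟩, hmax⟩ := set_has_maximal_iff_noetherian.mpr
    (inferInstance : IsNoetherian R R) Q hQ
  have hPt : Ideal.IsTwoSided P := ⟨fun {x} b hx => by
    rw [hP] at hx ⊢
    intro i hi
    rw [← mul_assoc, hx i hi, zero_mul]⟩
  refine ⟨P, hPt, I, hI0, hP, ?_⟩
  intro x y hxy
  by_contra hcon
  push Not at hcon
  obtain ⟨hx, hy⟩ := hcon
  let J : Ideal R := Ideal.span {z | ∃ i ∈ I, ∃ s, z = i * x * s}
  have hJt : J.IsTwoSided := ⟨fun {z} t hz => by
    refine Submodule.span_induction (p := fun z _ => z * t ∈ J) ?_ ?_ ?_ ?_ hz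
    · rintro z ⟨i, hi, s, rfl⟩
      exact Submodule.subset_span ⟨i, hi, s * t, by rw [mul_assoc]⟩
    · rw [zero_mul]; exact J.zero_mem
    · intro p q _ _ hp hq
      rw [add_mul]; exact J.add_mem hp hq
    · intro c p _ hp
      rw [smul_eq_mul, mul_assoc]; exact J.mul_mem_left _ hp⟩
  have hJ0 : J ≠ ⊥ := by
    intro hJ
    apply hx
    rw [hP]
    intro i hi
    have : i * x * 1 ∈ J := Submodule.subset_span ⟨i, hi, 1, rfl⟩
    rw [hJ, Ideal.mem_bot, mul_one] at this
    exact this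
  obtain ⟨P', hP'⟩ := mk J hJt
  have hkill : ∀ h, (∀ s, x * s * h ∈ P) → h ∈ P' := by
    intro h hh
    rw [hP']
    intro j hj
    refine Submodule.span_induction (p := fun z _ => z * h = 0) ?_ ?_ ?_ ?_ hj
    · rintro z ⟨i, hi, s, rfl⟩
      have := (hP _).mp (hh s) i hi
      rw [← this]; simp only [mul_assoc]
    · rw [zero_mul]
    · intro p q _ _ hp hq
      rw [add_mul, hp, hq, add_zero]
    · intro c p _ hp
      rw [smul_eq_mul, mul_assoc, hp, mul_zero]
  have hle : P ≤ P' := fun h hh => hkill h (fun s => by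
    exact Ideal.mul_mem_left P _ hh)
  have hyP' : y ∈ P' := hkill y hxy
  have hlt : P < P' := lt_of_le_of_ne hle (fun h => hy (h ▸ hyP'))
  exact hmax P' ⟨J, hJt, hJ0, hP'⟩ hlt

end

end H58Hopf
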