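import Pool.Agent.H58.Hopf.Antipode

/-!
The antipode of a left noetherian Hopf algebra is surjective (argument of helper30).
-/

open TensorProduct Coalgebra HopfAlgebra

namespace H58Hopf

section

variable {k : Type*} [Field k] {H : Type*} [Ring H] [HopfAlgebra k H]

/-- the antipode is an anti coalgebra map -/
theorem comul_antipode_eq (x : H) :
    (comul (antipode k x) : H ⊗[k] H)
      = TensorProduct.map (antipode k) (antipode k) (TensorProduct.comm k H H (comul x)) := by
  classical
  obtain ⟨m, D, hD⟩ := exists_codata (k := k) ({x} : Finset H)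
  have hx := hD x (by simp)
  obtain ⟨c, rfl⟩ := (Submodule.mem_span_range_iff_exists_fun k).mp hx
  simp only [map_sum, map_smul]
  refine Finset.sum_congr rfl fun i _ => ?_
  rw [D.comul_s_n, D.comul_n]
  simp

/-- the set `{x | t S(x) has entries in S(H)}` -/
def TI {m : Type*} [Fintype m] [DecidableEq m] (D : CoData k H m) (x : H) : Prop :=
  ∀ l j, ∃ y, D.d l j * antipode k x = antipode k y

theorem TI.mul {m : Type*} [Fintype m] [DecidableEq m] {D : CoData k H m} {x : H}
    (h : TI D x) (a : H) : TI D (a * x) := by
  intro l j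
  obtain ⟨y, hy⟩ := h l j
  refine ⟨a * y, ?_⟩
  rw [HopfAlgebra.antipode_mul_antidistrib, HopfAlgebra.antipode_mul_antidistrib, ← mul_assoc, hy]

theorem TI.sum {m : Type*} [Fintype m] [DecidableEq m] {D : CoData k H m} {ι : Type*}
    (s : Finset ι) (f : ι → H) (h : ∀ i ∈ s, TI D (f i)) : TI D (∑ i ∈ s, f i) := by
  intro l j
  have h1 : ∀ i : ι, ∃ y, i ∈ s → D.d l j * antipode k (f i) = antipode k y := by
    intro i
    by_cases hi : i ∈ s
    · obtain ⟨y, hy⟩ := h i hi l j
      exact ⟨y, fun _ => hy⟩
    · exact ⟨0, fun h => absurd h hi⟩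
  choose y hy using h1
  refine ⟨∑ i ∈ s, y i, ?_⟩
  rw [map_sum, map_sum, Finset.mul_sum]
  exact Finset.sum_congr rfl fun i hi => hy i hi

theorem TI.coeff (hS : Function.Injective (antipode k : H →ₗ[k] H))
    {m : Type*} [Fintype m] [DecidableEq m] {D : CoData k H m} {x : H} (h : TI D x)
    {ι : Type*} [DecidableEq ι] (e : ι → H) (he : LinearIndependent k e) (s : Finset ι)
    (c : ι → H) (hc : (comul x : H ⊗[k] H) = ∑ i ∈ s, e i ⊗ₜ[k] c i) :
    ∀ i ∈ s, TI D (c i) := by
  classical
  intro i0 hi0 l q
  choose y hy using h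
  -- the linear functional dual to `S² e_{i0}`
  have hS2 : LinearIndependent k (fun i => antipode k (antipode k (e i))) := by
    have h1 := he.map' (antipode k : H →ₗ[k] H) (LinearMap.ker_eq_bot.mpr hS)
    exact h1.map' (antipode k : H →ₗ[k] H) (LinearMap.ker_eq_bot.mpr hS)
  obtain ⟨ψ, hψ⟩ := exists_dual hS2 i0
  -- apply the comultiplication
  have h1 : ∀ j, ∑ p, ∑ i ∈ s, (D.d l p * antipode k (c i)) ⊗ₜ[k] (D.d p j * antipode k (e i))
      = (comul (antipode k (y l j)) : H ⊗[k] H) := by
    intro j
    have h2 := congrArg (fun z => (comul z : H ⊗[k] H)) (hy l j)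
    simp only [Bialgebra.comul_mul] at h2
    rw [← h2, D.comul_d, comul_antipode_eq x, hc]
    simp only [map_sum, TensorProduct.comm_tmul, TensorProduct.map_tmul, Finset.sum_mul,
      Finset.mul_sum, Algebra.TensorProduct.tmul_mul_tmul]
    rw [Finset.sum_comm]
  -- the linear map `a ⊗ b ↦ ψ (S b * t_{jq}) a`
  let L : m → (H ⊗[k] H →ₗ[k] H) := fun j =>
    (TensorProduct.rid k H).toLinearMap ∘ₗ
      (ψ ∘ₗ (LinearMap.mulRight k (D.d j q)) ∘ₗ (antipode k : H →ₗ[k] H)).lTensor H
  have hL : ∀ j (a b : H), L j (a ⊗ₜ[k] b) = ψ (antipode k b * D.d j q) • a := by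
    intro j a b
    simp [L]
  have hrange : ∀ j (z : H ⊗[k] H), ∃ w, L j (TensorProduct.map (antipode k) (antipode k) z)
      = antipode k w := by
    intro j z
    induction z using TensorProduct.induction_on with
    | zero => exact ⟨0, by simp⟩
    | tmul a b =>
      refine ⟨ψ (antipode k (antipode k b) * D.d j q) • a, ?_⟩
      rw [TensorProduct.map_tmul, hL, map_smul]
    | add a b ha hb =>
      obtain ⟨w, hw⟩ := ha
      obtain ⟨w', hw'⟩ := hb
      exact ⟨w + w', by rw [map_add, map_add, hw, hw', map_add]⟩
  have h3 : ∀ j, ∃ w, L j (comul (antipode k (y l j))) = antipode k w := by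
    intro j
    rw [comul_antipode_eq]
    exact hrange j _
  choose w hw using h3
  refine ⟨∑ j, w j, ?_⟩
  rw [map_sum]
  calc D.d l q * antipode k (c i0)
      = ∑ p, ∑ i ∈ s, ψ (antipode k (antipode k (e i)) * (∑ j, D.s p j * D.d j q)) •
          (D.d l p * antipode k (c i)) := by
        have h4 : ∀ p, (∑ j, D.s p j * D.d j q) = if p = q then 1 else 0 := by
          intro p
          have := congrFun (congrFun D.s_mul_d p) q
          rwa [Matrix.mul_apply, Matrix.one_apply] at this
        simp only [h4]
        rw [Finset.sum_eq_single q]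
        · simp only [if_true, mul_one, hψ]
          simp [hi0]
        · intro p _ hp
          simp [hp]
        · intro hq
          exact absurd (Finset.mem_univ q) hq
    _ = ∑ j, L j (comul (antipode k (y l j))) := by
        simp only [← h1, map_sum, hL, HopfAlgebra.antipode_mul_antidistrib, Finset.mul_sum,
          Finset.sum_smul]
        conv_rhs => rw [Finset.sum_comm]
        refine Finset.sum_congr rfl fun p _ => ?_
        rw [Finset.sum_comm]
        refine Finset.sum_congr rfl fun j _ => Finset.sum_congr rfl fun i _ => ?_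
        rw [CoData.s, Matrix.map_apply, mul_assoc]
    _ = ∑ j, antipode k (w j) := Finset.sum_congr rfl fun j _ => hw j

theorem TI.one (hS : Function.Injective (antipode k : H →ₗ[k] H))
    {m : Type*} [Fintype m] [DecidableEq m] {D : CoData k H m} {x : H} (h : TI D x)
    (hx : x ≠ 0) : TI D (1 : H) := by
  classical
  let e := Module.Basis.ofVectorSpace k H
  have key : ∀ z : H, TI D z → ∃ (c : Module.Basis.ofVectorSpaceIndex k H →₀ H),
      (comul z : H ⊗[k] H) = ∑ i ∈ c.support, e i ⊗ₜ[k] c i ∧ ∀ i ∈ c.support, TI D (c i) := by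
    intro z hz
    obtain ⟨c, hc⟩ := TensorProduct.eq_repr_basis_left e (comul z : H ⊗[k] H)
    refine ⟨c, hc.symm, ?_⟩
    exact TI.coeff hS hz e e.linearIndependent c.support c hc.symm
  obtain ⟨c, hc, hcT⟩ := key x h
  have h1 : ∃ i ∈ c.support, counit (R := k) (c i) ≠ 0 := by
    by_contra hcon
    push Not at hcon
    apply hx
    have h2 : (TensorProduct.rid k H) ((counit (R := k) (A := H)).lTensor H (comul x)) = x := by
      rw [lTensor_counit_comul]; simp
    rw [← h2, hc]
    simp only [map_sum, LinearMap.lTensor_tmul, TensorProduct.rid_tmul]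
    exact Finset.sum_eq_zero fun i hi => by rw [hcon i hi, zero_smul]
  obtain ⟨i, hi, hne⟩ := h1
  obtain ⟨c', hc', hcT'⟩ := key (c i) (hcT i hi)
  have h3 := mul_antipode_rTensor_comul_apply (R := k) (c i)
  rw [hc'] at h3
  simp only [map_sum, LinearMap.rTensor_tmul, LinearMap.mul'_apply] at h3
  have h4 : TI D (algebraMap k H (counit (R := k) (c i))) := by
    rw [← h3]
    exact TI.sum _ _ fun j hj => (hcT' j hj).mul _
  have h5 := h4.mul (algebraMap k H (counit (R := k) (c i))⁻¹)
  rwa [← map_mul, inv_mul_cancel₀ hne, map_one] at h5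

/-- The antipode of a left noetherian Hopf algebra is surjective. -/
theorem antipode_surjective [StrongRankCondition H]
    (hS : Function.Injective (antipode k : H →ₗ[k] H)) :
    Function.Surjective (antipode k : H →ₗ[k] H) := by
  classical
  intro h
  obtain ⟨m, D, hD⟩ := exists_codata (k := k) ({h} : Finset H)
  have hh := hD h (by simp)
  suffices hone : TI D (1 : H) by
    have h1 : ∀ l j, D.d l j ∈ LinearMap.range (antipode k : H →ₗ[k] H) := by
      intro l j
      obtain ⟨y, hy⟩ := hone l j
      rw [antipode_one, mul_one] at hy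
      exact ⟨y, hy.symm⟩
    have h2 : h ∈ LinearMap.range (antipode k : H →ₗ[k] H) := by
      refine (Submodule.span_le.mpr ?_ : Submodule.span k (Set.range D.n) ≤ _) hh
      rintro _ ⟨i, rfl⟩
      rw [D.n_eq i]
      exact Submodule.sum_mem _ fun j _ => Submodule.smul_mem _ _ (h1 i j)
    exact h2
  by_contra hcon
  let f : (Option (Fin m × Fin m) → H) →ₗ[H] (Fin m × Fin m → H) :=
    { toFun := fun g p => (if p.1 = p.2 then g none else 0)
        - ∑ l, g (some (l, p.2)) * D.d p.1 l
      map_add' := by
        intro g g'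
        funext p
        simp only [Pi.add_apply, add_mul, Finset.sum_add_distrib]
        split_ifs <;> abel
      map_smul' := by
        intro r g
        funext p
        simp only [Pi.smul_apply, smul_eq_mul, RingHom.id_apply, mul_sub, Finset.mul_sum,
          mul_assoc]
        split_ifs <;> simp }
  have hf : Function.Injective f := by
    rw [injective_iff_map_eq_zero]
    intro g hg
    have h1 : ∀ i j, (if i = j then g none else 0) = ∑ l, g (some (l, j)) * D.d i l := by
      intro i j
      have := congrFun hg (i, j)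
      exact sub_eq_zero.mp this
    let Y : Matrix (Fin m) (Fin m) H := fun l j => antipode k (g (some (l, j)))
    have h2 : D.s * Y = Matrix.diagonal (fun _ => antipode k (g none)) := by
      ext i j
      rw [Matrix.mul_apply]
      have h3 := congrArg (antipode k : H →ₗ[k] H) (h1 i j)
      simp only [map_sum, HopfAlgebra.antipode_mul_antidistrib] at h3
      simp only [CoData.s, Matrix.map_apply, Y]
      rw [← h3, Matrix.diagonal_apply]
      split_ifs <;> simp
    have h4 : Y = D.d * Matrix.diagonal (fun _ => antipode k (g none)) := by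
      rw [← h2, ← Matrix.mul_assoc, D.d_mul_s, Matrix.one_mul]
    have h5 : ∀ l j, antipode k (g (some (l, j))) = D.d l j * antipode k (g none) := by
      intro l j
      have := congrFun (congrFun h4 l) j
      rwa [Matrix.mul_diagonal] at this
    have h6 : g none = 0 := by
      by_contra hne
      exact hcon (TI.one hS (fun l j => ⟨_, (h5 l j).symm⟩) hne)
    funext p
    rcases p with _ | ⟨l, j⟩
    · exact h6
    · apply hS
      rw [h5 l j, h6]
      simp
  have h7 := card_le_of_injective H f hf
  rw [Fintype.card_option] at h7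
  omega

end

end H58Hopf
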