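import Pool.Agent.H58.Hopf.General
import Pool.Agent.H58.Hopf.Surj

/-!
The antipode of a noetherian Hopf algebra is bijective; sub-bialgebras that are left noetherian,
right noetherian or without free subalgebras of rank two generate the Hopf algebra together with
their antipodes.
-/

universe u v

open TensorProduct Coalgebra HopfAlgebra

namespace H58Hopf

section

variable {k : Type u} [Field k] {H : Type v} [Ring H] [HopfAlgebra k H]

/-- The antipode of a left noetherian Hopf algebra is bijective. -/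
theorem antipode_bijective (hl : IsNoetherianRing H) :
    Function.Bijective (antipode k : H →ₗ[k] H) := by
  have hnt : Nontrivial H := nontrivial_of_hopf k H
  have hS : Function.Injective (antipode k : H →ₗ[k] H) := antipode_injective
  exact ⟨hS, antipode_surjective hS⟩

/-- `B` contains no free algebra of rank two -/
def NoFreeIn (B : Subalgebra k H) : Prop :=
  ¬ ∃ x ∈ B, ∃ y ∈ B, Function.Injective (FreeAlgebra.lift k ![x, y] : FreeAlgebra k (Fin 2) →ₐ[k] H)

theorem generated_of_noFree_sub (hl : IsNoetherianRing H) (hr : IsNoetherianRing Hᵐᵒᵖ) :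
    ∃ F0 : Finset H, ∀ B : Subalgebra k H, (∀ x ∈ F0, x ∈ B) → IsSubBialg B →
      (IsNoetherianRing B ∨ NoFreeIn B) →
      Algebra.adjoin k ((B : Set H) ∪ antipode k '' (B : Set H)) = ⊤ := by
  classical
  obtain ⟨P, hPt, a, t0, F0, ha, ht0, hore, hat, hmain⟩ := main_principle (k := k) hl hr
  refine ⟨F0, fun B hF0 hΔ hBn => ?_⟩
  apply hmain B hF0 hΔ
  obtain ⟨⟨a', ha', haa⟩, ⟨t', ht', htt⟩⟩ := hat
  have haB : a ∈ B.map (Ideal.Quotient.mkₐ k P) := ⟨a', hF0 _ ha', haa⟩
  have htB : t0 ∈ B.map (Ideal.Quotient.mkₐ k P) := ⟨t', hF0 _ ht', htt⟩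
  let f : H →ₐ[k] H ⧸ P := Ideal.Quotient.mkₐ k P
  let g : B →ₐ[k] B.map f := (f.comp B.val).codRestrict (B.map f) (fun b => ⟨b, b.2, rfl⟩)
  have hg : Function.Surjective g := by
    rintro ⟨_, b, hb, rfl⟩
    exact ⟨⟨b, hb⟩, rfl⟩
  rcases hBn with hBn | hfree
  · have hn : IsNoetherianRing (B.map f) :=
      isNoetherianRing_of_surjective B (B.map f) g.toRingHom hg
    exact oreOn_of_noetherian ha.maxAnn (B.map f).toSubring hn haB htB ht0
  · let a1 : B.map f := ⟨a, haB⟩
    have ha1 : MaxAnn a1 := by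
      intro s r hs h0
      have h1 := ha.maxAnn (s : H ⧸ P) (r : H ⧸ P)
        (fun h => hs (Subtype.ext h)) (congrArg Subtype.val h0)
      exact Subtype.ext h1
    have hfree1 : ¬ ∃ x y : B.map f, Function.Injective (FreeAlgebra.lift k ![x, y]) := by
      rintro ⟨x, y, hxy⟩
      obtain ⟨x', rfl⟩ := hg x
      obtain ⟨y', rfl⟩ := hg y
      apply hfree
      refine ⟨x', x'.2, y', y'.2, ?_⟩
      have h1 : (FreeAlgebra.lift k ![g x', g y'] : FreeAlgebra k (Fin 2) →ₐ[k] B.map f)
          = g.comp (FreeAlgebra.lift k ![x', y']) := by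
        ext i
        fin_cases i <;> simp
      have h2 : Function.Injective
          (FreeAlgebra.lift k ![x', y'] : FreeAlgebra k (Fin 2) →ₐ[k] B) := by
        rw [h1] at hxy
        exact Function.Injective.of_comp (f := g) (by exact hxy)
      have h3 : (FreeAlgebra.lift k ![(x' : H), (y' : H)] : FreeAlgebra k (Fin 2) →ₐ[k] H)
          = B.val.comp (FreeAlgebra.lift k ![x', y']) := by
        ext i
        fin_cases i <;> simp
      rw [h3]
      exact (Subtype.val_injective).comp h2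
    have hO := oreOn_of_noFree (k := k) ha1 hfree1 ⊤ Algebra.mem_top
    intro b hb c hc hb0 hc0
    obtain ⟨e, _, e', _, h1, h2⟩ := hO ⟨b, hb⟩ Algebra.mem_top ⟨c, hc⟩ Algebra.mem_top
      (fun h => hb0 (congrArg Subtype.val h)) (fun h => hc0 (congrArg Subtype.val h))
    exact ⟨e, e.2, e', e'.2, congrArg Subtype.val h1, fun h => h2 (Subtype.ext h)⟩

/-- The image of a subalgebra under the antipode. -/
noncomputable def SB (B : Subalgebra k H) : Subalgebra k H where
  carrier := antipode k '' (B : Set H)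
  mul_mem' := by
    rintro _ _ ⟨a, ha, rfl⟩ ⟨b, hb, rfl⟩
    exact ⟨b * a, B.mul_mem hb ha, HopfAlgebra.antipode_mul_antidistrib _ _⟩
  add_mem' := by
    rintro _ _ ⟨a, ha, rfl⟩ ⟨b, hb, rfl⟩
    exact ⟨a + b, B.add_mem ha hb, map_add _ _ _⟩
  algebraMap_mem' := by
    intro c
    refine ⟨algebraMap k H c, B.algebraMap_mem c, ?_⟩
    rw [Algebra.algebraMap_eq_smul_one, map_smul, antipode_one]

theorem mem_SB {B : Subalgebra k H} {x : H} : x ∈ SB B ↔ ∃ b ∈ B, antipode k b = x := Iff.rfl

theorem SB_mono {B C : Subalgebra k H} (h : B ≤ C) : SB B ≤ SB C := by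
  rintro _ ⟨b, hb, rfl⟩
  exact ⟨b, h hb, rfl⟩

theorem isSubBialg_SB {B : Subalgebra k H} (hΔ : IsSubBialg B) : IsSubBialg (SB B) := by
  rintro _ ⟨b, hb, rfl⟩
  obtain ⟨t, ht⟩ := hΔ b hb
  let s : B →ₗ[k] SB B :=
    { toFun := fun b => ⟨antipode k (b : H), b, b.2, rfl⟩
      map_add' := fun x y => Subtype.ext (by simp)
      map_smul' := fun c x => Subtype.ext (by simp) }
  refine ⟨TensorProduct.map s s (TensorProduct.comm k B B t), ?_⟩
  rw [comul_antipode_eq, ← ht]
  clear ht
  induction t using TensorProduct.induction_on with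
  | zero => simp
  | tmul x y => simp [s]
  | add x y hx hy => simp only [map_add, hx, hy]

/-- Sub-bialgebras that are left noetherian, right noetherian or without free subalgebras. -/
theorem generated_of_sub (hl : IsNoetherianRing H) (hr : IsNoetherianRing Hᵐᵒᵖ) :
    ∃ F0 : Finset H, ∀ B : Subalgebra k H, (∀ x ∈ F0, x ∈ B) → IsSubBialg B →
      (IsNoetherianRing B ∨ IsNoetherianRing Bᵐᵒᵖ ∨ NoFreeIn B) →
      Algebra.adjoin k ((B : Set H) ∪ antipode k '' (B : Set H)) = ⊤ := by
  classical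
  obtain ⟨F0, hF⟩ := generated_of_noFree_sub (k := k) hl hr
  have hb := antipode_bijective (k := k) hl
  choose σ hσ using hb.2
  refine ⟨F0 ∪ F0.image σ, fun B hB hΔ h => ?_⟩
  have hB1 : ∀ x ∈ F0, x ∈ B := fun x hx => hB x (Finset.mem_union_left _ hx)
  rcases h with h | h | h
  · exact hF B hB1 hΔ (Or.inl h)
  · have hB2 : ∀ x ∈ F0, x ∈ SB B := fun x hx =>
      ⟨σ x, hB _ (Finset.mem_union_right _ (Finset.mem_image_of_mem _ hx)), hσ x⟩
    have hn : IsNoetherianRing (SB B) := by
      let e : Bᵐᵒᵖ →+* SB B :=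
        { toFun := fun b => ⟨antipode k (b.unop : H), b.unop, b.unop.2, rfl⟩
          map_one' := Subtype.ext (by simp)
          map_mul' := fun x y => Subtype.ext (by
            simp [HopfAlgebra.antipode_mul_antidistrib])
          map_zero' := Subtype.ext (by simp)
          map_add' := fun x y => Subtype.ext (by simp) }
      refine isNoetherianRing_of_surjective Bᵐᵒᵖ (SB B) e ?_
      rintro ⟨_, b, hb, rfl⟩
      exact ⟨MulOpposite.op ⟨b, hb⟩, rfl⟩
    have h1 := hF (SB B) hB2 (isSubBialg_SB hΔ) (Or.inl hn)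
    let C := Algebra.adjoin k ((B : Set H) ∪ antipode k '' (B : Set H))
    have hBC : B ≤ C := fun x hx => Algebra.subset_adjoin (Or.inl hx)
    have hSC : SB B ≤ C := fun x hx => Algebra.subset_adjoin (Or.inr hx)
    have h2 : (⊤ : Subalgebra k H) ≤ SB C := by
      rw [← h1]
      refine Algebra.adjoin_le ?_
      rintro x (hx | ⟨y, hy, rfl⟩)
      · exact SB_mono hBC hx
      · exact ⟨y, hSC hy, rfl⟩
    rw [eq_top_iff]
    intro x _
    obtain ⟨y, hy, hyx⟩ := h2 (Algebra.mem_top : antipode k x ∈ ⊤)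
    rw [← hb.1 hyx]
    exact hy
  · exact hF B hB1 hΔ (Or.inr h)

end

end H58Hopf
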